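import Pool.Agent.W2helper57.LC.Stm2
import Pool.Agent.W2helper85.LC.QUANT

/-!
# Pieces D1 and D2: merging of existential quantifiers, and `P(Σ_k) ⊆ Σ_(k+1)`

This is the file `Pool.Agent.W2helper66.LC.D` with one step of `run_stp` written without `congr!`.
-/

set_option autoImplicit false

namespace Pool.Agent.W2helper57.LC.DC

open Pool.Agent.NPC Pool.Agent.H620R2.Gauge Pool.Agent.H591R3.PHG Pool.Agent.H622R2
  Pool.Agent.W2helper57.LC Pool.Agent.W2helper85.LC H529R3.Lev

/-! ### Cases -/

theorem sig_univ (A : Oracle) (k : ℕ) : IsSig A k Set.univ :=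
  IsSig.of_isP ⟨fun _ => [true], IsFP.of_poly (NPC.Poly.const _), fun x => by simp⟩ k

theorem sig_empty (A : Oracle) (k : ℕ) : IsSig A k ∅ :=
  IsSig.of_isP ⟨fun _ => [], IsFP.of_poly (NPC.Poly.const _), fun x => by simp⟩ k

theorem upoly_ite {α : Type} [TEnc α] {c : α → Bool} {m n : α → ℕ} (hc : Poly c) (hm : UPoly m)
    (hn : UPoly n) : UPoly (fun a => if c a = true then m a else n a) :=
  (Poly.ite (p := fun a => c a = true) (by simpa using hc) hm hn).congr fun a => by
    by_cases h : c a = true <;> simp [h]

theorem sig_ite {A : Oracle} {k : ℕ} {L₁ L₂ : Set (List Bool)} (h1 : IsSig A k L₁)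
    (h2 : IsSig A k L₂) {c : List Bool → Bool} {f g : List Bool → List Bool} (hc : Poly c)
    (hf : Poly f) (hg : Poly g) :
    IsSig A k {x | if c x = true then f x ∈ L₁ else g x ∈ L₂} := by
  obtain ⟨V₁, p₁, hV₁, hL₁⟩ := h1
  obtain ⟨V₂, p₂, hV₂, hL₂⟩ := h2
  have hs : Poly (fun z : List Bool => (unpair z).2) := Poly.snd poly_unpair
  have hV : IsFP A (fun z => if c (unpair z).1 = true then V₁ (unpair z).2 else
      V₂ (unpair z).2) :=
    IsFP.seq (φ := fun p => p.1)
      (ψ := fun p => if c (unpair p.1).1 = true then p.2.1 else p.2.2)
      (hV₁.precomp hs) (hV₂.precomp hs) (Poly.fst Poly.id)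
      (Poly.ite (p := fun p : List Bool × List Bool × List Bool => c (unpair p.1).1 = true)
        (by simpa using hc.comp (Poly.fst (poly_unpair.comp (Poly.fst Poly.id))))
        (Poly.fst (Poly.snd Poly.id)) (Poly.snd (Poly.snd Poly.id)))
  have hn : UPoly (fun x => if c x = true then p₁.eval (f x).length else p₂.eval (g x).length) :=
    upoly_ite hc (UPoly.eval (UPoly.length hf) p₁) (UPoly.eval (UPoly.length hg) p₂)
  have hG : Poly (fun x => if c x = true then f x else g x) :=
    Poly.ite (p := fun x => c x = true) (by simpa using hc) hf hg
  have h := gtn A k _ _ _ hV hn hG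
  convert h using 1
  ext x
  simp only [Set.mem_ofPred_eq, unpair_pairBits]
  by_cases hx : c x = true
  · simp only [hx, if_true, hL₁]
  · simp only [hx, if_false, hL₂, Bool.false_eq_true]

theorem sig_pre {A : Oracle} {k : ℕ} {L : Set (List Bool)} (h : IsSig A k L)
    {f : List Bool → List Bool} (hf : Poly f) : IsSig A k {x | f x ∈ L} := by
  have h1 := sig_ite h h (NPC.Poly.const true) hf hf
  simpa using h1

theorem sig_cond {A : Oracle} {k : ℕ} {L₁ L₂ : Set (List Bool)} {c : List Bool → Bool}
    (hc : Poly c) (h1 : IsSig A k L₁) (h2 : IsSig A k L₂) :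
    IsSig A k {x | if c x = true then x ∈ L₁ else x ∈ L₂} :=
  sig_ite h1 h2 hc Poly.id Poly.id

/-! ### Two existential quantifiers -/

theorem d2 : S_D2 := by
  intro A k L n hL hn
  obtain ⟨L', n', hL', hn', h⟩ := peeln A k L hL
  obtain ⟨b, hb⟩ := upoly_bound hn'
  have p1 : Poly (fun z : List Bool => (unpair (unpair z).1).1) :=
    Poly.fst (poly_unpair.comp (Poly.fst poly_unpair))
  have p2 : Poly (fun z : List Bool => (unpair (unpair z).1).2) :=
    Poly.snd (poly_unpair.comp (Poly.fst poly_unpair))
  have p3 : Poly (fun z : List Bool => (unpair z).2) := Poly.snd poly_unpair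
  have p4 : Poly (fun z : List Bool => pairBits (unpair (unpair z).1).1 (unpair z).2) :=
    poly_pairBits p1 p3
  have hc : Poly (fun z : List Bool =>
      decide ((unpair (unpair z).1).1.length ≤ n (unpair z).2) &&
      decide ((unpair (unpair z).1).2.length ≤
        n' (pairBits (unpair (unpair z).1).1 (unpair z).2))) :=
    Poly.and (Poly.decide_le (Poly.length p1) (hn.toPoly.comp p3))
      (Poly.decide_le (Poly.length p2) (hn'.toPoly.comp p4))
  have hB := sig_ite hL' (sig_univ A k) hc (poly_pairBits p2 p4) Poly.id
  have hN : UPoly (fun x : List Bool => 2 * n x + 1 + b.eval (2 * n x + 1 + x.length)) := by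
    have h2 : UPoly (fun x : List Bool => 2 * n x + 1) :=
      (UPoly.mul (UPoly.const 2) hn).add (UPoly.const 1)
    exact h2.add (UPoly.eval (h2.add (UPoly.length Poly.id)) b)
  have hM := mrn A k _ _ hB hN
  convert hM using 1
  ext x
  simp only [Set.mem_ofPred_eq, unpair_pairBits, Set.mem_univ, Bool.and_eq_true,
    decide_eq_true_eq]
  constructor
  · rintro ⟨w, hw, hwL⟩
    obtain ⟨w', hw', hL''⟩ := (h _).1 hwL
    refine ⟨pairBits w w', ?_, ?_⟩
    · rw [length_pairBits]
      have h1 := hb (pairBits w x)
      have h2 : b.eval (pairBits w x).length ≤ b.eval (2 * n x + 1 + x.length) := by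
        apply eval_mono
        rw [length_pairBits]
        omega
      omega
    · rw [unpair_pairBits]
      simp only [hw, hw', and_self, if_true]
      exact hL''
  · rintro ⟨u, -, hu⟩
    obtain ⟨w, w', hww⟩ : ∃ w w', unpair u = (w, w') := ⟨_, _, rfl⟩
    rw [hww] at hu
    dsimp only at hu
    by_cases hc : w.length ≤ n x ∧ w'.length ≤ n' (pairBits w x)
    · rw [if_pos hc] at hu
      exact ⟨w, hc.1, (h _).2 ⟨w', hc.2, hu⟩⟩
    · rw [if_neg hc] at hu
      exact absurd trivial hu

/-! ### Transcripts -/

theorem run_iff (M : Alg) (O : Oracle) (x : List Bool) : ∀ (m : ℕ) (a₀ : List Bool),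
    M.run O x m a₀ = some [true] ↔ ∃ a : List Bool, a.length < m ∧
      M.D (pairBits x (a₀ ++ a)) = [true, true] ∧
      ∀ i (_ : i < a.length), ∃ q, M.D (pairBits x (a₀ ++ a.take i)) = false :: q ∧
        a[i] = O q := by
  intro m
  induction m with
  | zero =>
    intro a₀
    simp [Alg.run]
  | succ m ih =>
    intro a₀
    cases hD : M.D (pairBits x a₀) with
    | nil =>
      simp only [Alg.run, hD]
      constructor
      · intro h
        simp at h
      · rintro ⟨a, _, h1, h2⟩
        cases a with
        | nil => rw [List.append_nil, hD] at h1; simp at h1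
        | cons c a =>
          obtain ⟨q, hq, -⟩ := h2 0 (by simp)
          rw [List.take_zero, List.append_nil, hD] at hq
          simp at hq
    | cons c z =>
      cases c with
      | true =>
        simp only [Alg.run, hD]
        constructor
        · intro h
          simp only [Option.some.injEq] at h
          refine ⟨[], by simp, ?_, by simp⟩
          rw [List.append_nil, hD, h]
        · rintro ⟨a, _, h1, h2⟩
          cases a with
          | nil =>
            rw [List.append_nil, hD] at h1
            simpa using h1
          | cons c a =>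
            obtain ⟨q, hq, -⟩ := h2 0 (by simp)
            rw [List.take_zero, List.append_nil, hD] at hq
            simp at hq
      | false =>
        simp only [Alg.run, hD]
        rw [ih]
        constructor
        · rintro ⟨a, ha, h1, h2⟩
          refine ⟨O z :: a, by simpa using ha, by simpa using h1, ?_⟩
          intro i hi
          cases i with
          | zero => exact ⟨z, by simpa using hD, by simp⟩
          | succ i =>
            obtain ⟨q, hq, hq'⟩ := h2 i (by simpa using hi)
            exact ⟨q, by simpa using hq, by simpa using hq'⟩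
        · rintro ⟨a, ha, h1, h2⟩
          cases a with
          | nil => rw [List.append_nil, hD] at h1; simp at h1
          | cons c a =>
            obtain ⟨q, hq, hq'⟩ := h2 0 (by simp)
            rw [List.take_zero, List.append_nil, hD] at hq
            simp only [List.cons.injEq, true_and] at hq
            simp only [List.getElem_cons_zero] at hq'
            subst hq
            subst hq'
            refine ⟨a, by simpa using ha, by simpa using h1, ?_⟩
            intro i hi
            obtain ⟨q, hq, hq'⟩ := h2 (i + 1) (by simpa using hi)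
            exact ⟨q, by simpa using hq, by simpa using hq'⟩

/-- decoding of a string of answers and a list of strings -/
def dec (u : List Bool) : List Bool × List (List Bool) :=
  match unbits (List Bool × List (List Bool)) u with
  | none => ([], [])
  | Option.some p => p

theorem poly_dec : Poly dec :=
  (Poly.optCases (o := fun u => unbits (List Bool × List (List Bool)) u)
    (g := fun _ => (([], []) : List Bool × List (List Bool))) (h := fun _ p => p)
    poly_unbits (NPC.Poly.const _) (Poly.snd Poly.id)).congr fun u => by
      unfold dec
      cases unbits (List Bool × List (List Bool)) u <;> rfl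

theorem dec_bits (p : List Bool × List (List Bool)) : dec (bits p) = p := by
  unfold dec
  rw [unbits_bits]

/-- the answers -/
def za (z : List Bool) : List Bool := (dec (unpair z).1).1

/-- the witnesses -/
def zws (z : List Bool) : List (List Bool) := (dec (unpair z).1).2

/-- the input -/
def zx (z : List Bool) : List Bool := (unpair z).2

theorem poly_za : Poly za := Poly.fst (poly_dec.comp (Poly.fst poly_unpair))
theorem poly_zws : Poly zws := Poly.snd (poly_dec.comp (Poly.fst poly_unpair))
theorem poly_zx : Poly zx := Poly.snd poly_unpair

/-- the next action -/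
def yD (M : Alg) (y : List Bool) : List Bool :=
  M.D (pairBits (zx (unpair y).2) (((za (unpair y).2).zip (unpair y).1).map (fun u => u.1)))

theorem poly_D (M : Alg) : Poly M.D := poly_of_polyTime M.poly

theorem poly_yD (M : Alg) : Poly (yD M) := by
  have h2 : Poly (fun y : List Bool => (unpair y).2) := Poly.snd poly_unpair
  have h3 : Poly (fun y : List Bool => ((za (unpair y).2).zip (unpair y).1).map
      (fun u => u.1)) :=
    Pool.Agent.NPC.Poly.map (F := fun _ u => u.1) (Poly.zip (poly_za.comp h2)
      (Poly.fst poly_unpair)) (Poly.fst (Poly.snd Poly.id))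
  exact (poly_D M).comp (poly_pairBits (poly_zx.comp h2) h3)

/-- the witness for the question -/
def yw (y : List Bool) : List Bool := (zws (unpair y).2).getD (unpair y).1.length []

theorem poly_yw : Poly yw :=
  Poly.getD (poly_zws.comp (Poly.snd poly_unpair)) (Poly.length (Poly.fst poly_unpair))
    (NPC.Poly.const [])

theorem take_zip (a w : List Bool) : (a.zip w).map (fun u => u.1) = a.take w.length := by
  induction a generalizing w with
  | nil => simp
  | cons c a ih =>
    cases w with
    | nil => simp
    | cons d w => simp [ih]

/-- the question is asked -/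
def c1 (y : List Bool) : Bool := decide ((unpair y).1.length < (za (unpair y).2).length)
/-- it is a question -/
def c2 (M : Alg) (y : List Bool) : Bool := decide ((yD M y).head? = some false)
/-- the answer -/
def c3 (y : List Bool) : Bool := (za (unpair y).2).getD (unpair y).1.length false
/-- the witness is short -/
def c4 (M : Alg) (n : List Bool → ℕ) (y : List Bool) : Bool :=
  decide ((yw y).length ≤ n (yD M y).tail)
/-- the end -/
def c0 (M : Alg) (y : List Bool) : Bool :=
  decide ((za (unpair y).2).length < M.p.eval (zx (unpair y).2).length) &&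
    decide (M.D (pairBits (zx (unpair y).2) (za (unpair y).2)) = [true, true])

theorem poly_c1 : Poly c1 :=
  Poly.decide_lt (Poly.length (Poly.fst poly_unpair))
    (Poly.length (poly_za.comp (Poly.snd poly_unpair)))

theorem poly_c2 (M : Alg) : Poly (c2 M) :=
  Poly.decide_eq (Poly.head? (poly_yD M)) (NPC.Poly.const _)

theorem poly_c3 : Poly c3 :=
  Poly.getD (poly_za.comp (Poly.snd poly_unpair)) (Poly.length (Poly.fst poly_unpair))
    (NPC.Poly.const false)

theorem poly_c4 (M : Alg) {n : List Bool → ℕ} (hn : UPoly n) : Poly (c4 M n) :=
  Poly.decide_le (Poly.length poly_yw) (hn.toPoly.comp (Poly.tail (poly_yD M)))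

theorem poly_c0 (M : Alg) : Poly (c0 M) := by
  have h2 : Poly (fun y : List Bool => (unpair y).2) := Poly.snd poly_unpair
  exact Poly.and (Poly.decide_lt (Poly.length (poly_za.comp h2))
    (UPoly.eval (UPoly.length (poly_zx.comp h2)) M.p).toPoly)
    (Poly.decide_eq ((poly_D M).comp (poly_pairBits (poly_zx.comp h2) (poly_za.comp h2)))
      (NPC.Poly.const _))

/-- something is wrong at the position of the transcript -/
def Bd (M : Alg) (n : List Bool → ℕ) (S S' : Set (List Bool)) : Set (List Bool) :=
  {y | if c1 y = true then
    y ∈ {y | if c2 M y = true then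
      y ∈ {y | if c3 y = true then
        y ∈ {y | if c4 M n y = true then pairBits (yw y) (yD M y).tail ∈ S' else y ∈ Set.univ}
        else y ∈ {y | (yD M y).tail ∈ S}}
      else y ∈ Set.univ}
    else y ∈ {y | if c0 M y = true then y ∈ (∅ : Set (List Bool)) else
      y ∈ (Set.univ : Set (List Bool))}}

theorem sig_Bd {A : Oracle} {k : ℕ} (M : Alg) {n : List Bool → ℕ} (hn : UPoly n)
    {S S' : Set (List Bool)} (hS : IsSig A k S) (hS' : IsSig A k S') :
    IsSig A k (Bd M n S S') :=
  sig_cond poly_c1 (sig_cond (poly_c2 M) (sig_cond poly_c3
    (sig_ite hS' (sig_univ A k) (poly_c4 M hn) (poly_pairBits poly_yw (Poly.tail (poly_yD M)))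
      Poly.id) (sig_pre hS (Poly.tail (poly_yD M)))) (sig_univ A k))
    (sig_cond (poly_c0 M) (sig_empty A k) (sig_univ A k))

theorem d1_succ (A : Oracle) (j : ℕ) (S L : Set (List Bool)) (hS : IsSig A (j + 1) S)
    (hL : IsP (chi S) L) : IsSig A (j + 2) L := by
  obtain ⟨S', n, hS', hn, hSS⟩ := peeln A j S hS
  obtain ⟨V, ⟨M, hM⟩, hV⟩ := hL
  obtain ⟨bn, hbn⟩ := upoly_bound hn
  obtain ⟨pD, hpD⟩ := (poly_D M).sz_le
  have hB := sig_Bd M hn hS hS'.succ
  have hBad := d2 A j _ (fun z => (za z).length) hB (UPoly.length poly_za)
  set N : List Bool → ℕ := fun x => (4 * M.p.eval x.length + 1) +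
    (M.p.eval x.length * (4 * bn.eval (pD.eval (4 * (2 * x.length + 1 + M.p.eval x.length) + 1)) +
      1 + 1) + 1) + 1 with hNd
  have hN : UPoly N := by
    have e0 : UPoly (fun x : List Bool => x.length) := UPoly.length Poly.id
    have e1 : UPoly (fun x : List Bool => M.p.eval x.length) := UPoly.eval e0 M.p
    have e2 := UPoly.eval (UPoly.add (UPoly.mul (UPoly.const 4) (UPoly.add (UPoly.add
      (UPoly.mul (UPoly.const 2) e0) (UPoly.const 1)) e1)) (UPoly.const 1)) pD
    have e3 := UPoly.eval e2 bn
    exact UPoly.add (UPoly.add (UPoly.add (UPoly.mul (UPoly.const 4) e1) (UPoly.const 1))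
      (UPoly.add (UPoly.mul e1 (UPoly.add (UPoly.add (UPoly.mul (UPoly.const 4) e3)
        (UPoly.const 1)) (UPoly.const 1))) (UPoly.const 1))) (UPoly.const 1)
  have hMain := mrn A (j + 1) _ N hBad hN
  convert hMain using 1
  ext x
  rw [hV]
  have hrun : V x = [true] ↔ M.run (chi S) x (M.p.eval x.length) [] = some [true] := by
    have := hM x
    unfold Alg.out at this
    rw [this]
    simp
  rw [hrun, run_iff]
  simp only [Set.mem_ofPred_eq, not_exists, not_and]
  constructor
  · rintro ⟨a, ha, h1, h2⟩
    simp only [List.nil_append] at h1 h2
    choose q hq hq' using h2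
    -- the witnesses
    have hw : ∀ i (hi : i < a.length), ∃ w : List Bool, w.length ≤ n (q i hi) ∧
        (a[i] = true → pairBits w (q i hi) ∉ S') := by
      intro i hi
      by_cases hai : a[i] = true
      · have : q i hi ∈ S := by
          have h3 := hq' i hi
          rw [hai] at h3
          unfold chi at h3
          simpa using h3.symm
        obtain ⟨w, hw1, hw2⟩ := (hSS _).1 this
        exact ⟨w, hw1, fun _ => hw2⟩
      · exact ⟨[], by simp, fun h => absurd h hai⟩
    choose w hw1 hw2 using hw
    set ws : List (List Bool) := List.ofFn (fun i : Fin a.length => w i i.2) with hws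
    have hq_len : ∀ i (hi : i < a.length), (q i hi).length ≤
        pD.eval (4 * (2 * x.length + 1 + M.p.eval x.length) + 1) := by
      intro i hi
      have h3 := length_lt_sz (M.D (pairBits x (a.take i)))
      have h4 := hpD (pairBits x (a.take i))
      have h5 := sz_listBool_le (pairBits x (a.take i))
      have h6 : (pairBits x (a.take i)).length ≤ 2 * x.length + 1 + M.p.eval x.length := by
        rw [length_pairBits, List.length_take]
        omega
      have h7 : pD.eval (sz (pairBits x (a.take i))) ≤
          pD.eval (4 * (2 * x.length + 1 + M.p.eval x.length) + 1) := eval_mono _ (by omega)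
      rw [hq i hi] at h3 h4
      rw [List.length_cons] at h3
      omega
    refine ⟨bits (a, ws), ?_, ?_⟩
    · rw [bits_length, sz_pair]
      have h3 := sz_listBool_le a
      have h4 : sz ws ≤ ws.length * (4 * bn.eval (pD.eval (4 * (2 * x.length + 1 +
          M.p.eval x.length) + 1)) + 1 + 1) + 1 := by
        apply sz_le_length_mul
        intro v hv
        rw [hws, List.mem_ofFn] at hv
        obtain ⟨i, rfl⟩ := hv
        have h5 := sz_listBool_le (w i i.2)
        have h6 := hw1 i i.2
        have h7 := hbn (q i i.2)
        have h8 := eval_mono bn (hq_len i i.2)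
        omega
      have h5 : ws.length = a.length := by simp [hws]
      have h6 : ws.length * (4 * bn.eval (pD.eval (4 * (2 * x.length + 1 +
          M.p.eval x.length) + 1)) + 1 + 1) ≤ M.p.eval x.length * (4 * bn.eval (pD.eval
            (4 * (2 * x.length + 1 + M.p.eval x.length) + 1)) + 1 + 1) :=
        Nat.mul_le_mul_right _ (by omega)
      rw [hNd]
      dsimp only
      omega
    · intro v hv
      have e1 : za (pairBits (bits (a, ws)) x) = a := by
        simp only [za, unpair_pairBits, dec_bits]
      have e2 : zws (pairBits (bits (a, ws)) x) = ws := by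
        simp only [zws, unpair_pairBits, dec_bits]
      have e3 : zx (pairBits (bits (a, ws)) x) = x := by
        simp only [zx, unpair_pairBits]
      rw [e1] at hv
      have eD : yD M (pairBits v (pairBits (bits (a, ws)) x)) =
          M.D (pairBits x (a.take v.length)) := by
        simp only [yD, unpair_pairBits, e1, e3, take_zip]
      intro hmem
      unfold Bd at hmem
      simp only [Set.mem_ofPred_eq, c1, c2, c3, c4, c0, unpair_pairBits, e1, e3, eD,
        decide_eq_true_eq] at hmem
      by_cases hva : v.length < a.length
      · rw [if_pos hva] at hmem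
        have hD := hq v.length hva
        have hD1 : (M.D (pairBits x (a.take v.length))).head? = some false := by rw [hD]; rfl
        have hD2 : (M.D (pairBits x (a.take v.length))).tail = q v.length hva := by rw [hD]; rfl
        rw [if_pos hD1, hD2] at hmem
        have hg : a.getD v.length false = a[v.length] := by simp [List.getD, hva]
        rw [hg] at hmem
        have hyw : yw (pairBits v (pairBits (bits (a, ws)) x)) = w v.length hva := by
          simp only [yw, unpair_pairBits, e2]
          have : v.length < ws.length := by simp [hws, hva]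
          rw [List.getD_eq_getElem _ _ this]
          simp [hws]
        by_cases hav : a[v.length] = true
        · rw [if_pos hav, hyw, if_pos (hw1 v.length hva)] at hmem
          exact hw2 v.length hva hav hmem
        · rw [if_neg hav] at hmem
          have h3 := hq' v.length hva
          apply hav
          rw [h3]
          unfold chi
          simpa using hmem
      · rw [if_neg hva] at hmem
        have : (decide (a.length < M.p.eval x.length) &&
            decide (M.D (pairBits x a) = [true, true])) = true := by
          simp [ha, h1]
        rw [if_pos this] at hmem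
        exact hmem
  · rintro ⟨u, -, hu⟩
    set a := za (pairBits u x) with ha
    have e3 : zx (pairBits u x) = x := by
      simp only [zx, unpair_pairBits]
    have key : ∀ i ≤ a.length, pairBits (List.replicate i true) (pairBits u x) ∉
        Bd M n S S' := fun i hi => hu _ (by simpa using hi)
    have eD : ∀ i, yD M (pairBits (List.replicate i true) (pairBits u x)) =
        M.D (pairBits x (a.take i)) := by
      intro i
      simp only [yD, unpair_pairBits, e3, take_zip, List.length_replicate, ← ha]
    have h0 := key a.length le_rfl
    unfold Bd at h0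
    simp only [Set.mem_ofPred_eq, c1, c0, unpair_pairBits, ← ha, e3, List.length_replicate,
      lt_irrefl, decide_false, Bool.false_eq_true, if_false, Set.mem_empty_iff_false,
      Set.mem_univ] at h0
    have h0' : (decide (a.length < M.p.eval x.length) &&
        decide (M.D (pairBits x a) = [true, true])) = true := by
      by_contra hc
      rw [if_neg hc] at h0
      exact h0 trivial
    rw [Bool.and_eq_true, decide_eq_true_eq, decide_eq_true_eq] at h0'
    refine ⟨a, h0'.1, by simpa using h0'.2, ?_⟩
    intro i hi
    have h1 := key i hi.le
    unfold Bd at h1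
    simp only [Set.mem_ofPred_eq, c1, c2, c3, c4, unpair_pairBits, ← ha, eD,
      List.length_replicate, decide_eq_true_eq] at h1
    rw [if_pos hi] at h1
    by_cases hD1 : (M.D (pairBits x (a.take i))).head? = some false
    · rw [if_pos hD1] at h1
      obtain ⟨q, hq⟩ : ∃ q, M.D (pairBits x (a.take i)) = false :: q := by
        cases hDD : M.D (pairBits x (a.take i)) with
        | nil => rw [hDD] at hD1; simp at hD1
        | cons c q =>
          rw [hDD] at hD1
          simp only [List.head?_cons, Option.some.injEq] at hD1
          exact ⟨q, by rw [hD1]⟩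
      refine ⟨q, by simpa using hq, ?_⟩
      have hg : a.getD i false = a[i] := by simp [List.getD, hi]
      rw [hg, hq, List.tail_cons] at h1
      unfold chi
      by_cases hai : a[i] = true
      · rw [if_pos hai] at h1
        by_cases h4 : (yw (pairBits (List.replicate i true) (pairBits u x))).length ≤ n q
        · rw [if_pos h4] at h1
          have : q ∈ S := (hSS q).2 ⟨_, h4, h1⟩
          simp [hai, this]
        · rw [if_neg h4] at h1
          exact absurd (Set.mem_univ _) h1
      · rw [if_neg hai] at h1
        have h5 : a[i] = false := by simpa using hai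
        simp [h5, h1]
    · rw [if_neg hD1] at h1
      exact absurd (Set.mem_univ _) h1

/-! ### The first level -/

/-- one round of the simulation -/
def stp (M : Alg) (V₀ : List Bool → List Bool) (y : List Bool) : List Bool :=
  if (M.D y).head? = some false then y ++ [decide (V₀ (M.D y).tail = [true])] else y

theorem isFP_stp {A : Oracle} (M : Alg) {V₀ : List Bool → List Bool} (h : IsFP A V₀) :
    IsFP A (stp M V₀) :=
  IsFP.seq (F := M.D) (G := V₀) (φ := fun p => p.2.tail)
    (ψ := fun p => if p.2.1.head? = some false then p.1 ++ [decide (p.2.2 = [true])] else p.1)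
    (IsFP.of_poly (poly_D M)) h (Poly.tail (Poly.snd Poly.id))
    (Poly.ite (p := fun p : List Bool × List Bool × List Bool => p.2.1.head? = some false)
      (Poly.decide_eq (Poly.head? (Poly.fst (Poly.snd Poly.id))) (NPC.Poly.const _))
      (Poly.append (Poly.fst Poly.id) (Poly.cons (Poly.decide_eq (Poly.snd (Poly.snd Poly.id))
        (NPC.Poly.const _)) (NPC.Poly.const [])))
      (Poly.fst Poly.id))

theorem length_stp (M : Alg) (V₀ : List Bool → List Bool) (i : ℕ) (y : List Bool) :
    ((stp M V₀)^[i] y).length ≤ y.length + i := by
  induction i with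
  | zero => simp
  | succ i ih =>
    rw [Function.iterate_succ_apply']
    unfold stp at ih ⊢
    split
    · rw [List.length_append, List.length_singleton]
      omega
    · omega

theorem pair_snoc (x a : List Bool) (b : Bool) : pairBits x a ++ [b] = pairBits x (a ++ [b]) := by
  unfold pairBits
  simp

theorem run_stp (M : Alg) (V₀ : List Bool → List Bool) (O : Oracle)
    (hO : ∀ q, O q = decide (V₀ q = [true])) (x : List Bool) : ∀ (m : ℕ) (a r : List Bool),
    M.run O x m a = some r → (r = [true] ↔ M.D ((stp M V₀)^[m] (pairBits x a)) = [true, true]) := by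
  intro m
  induction m with
  | zero =>
    intro a r h
    simp [Alg.run] at h
  | succ m ih =>
    intro a r h
    rw [Function.iterate_succ_apply]
    cases hD : M.D (pairBits x a) with
    | nil =>
      have e : stp M V₀ (pairBits x a) = pairBits x a := by
        unfold stp
        rw [hD]
        simp
      have e' : ∀ j, (stp M V₀)^[j] (pairBits x a) = pairBits x a := fun j =>
        Function.iterate_fixed e j
      rw [e, e', hD]
      simp only [Alg.run, hD, Option.some.injEq] at h
      rw [← h]
      simp
    | cons c z =>
      cases c with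
      | true =>
        have e : stp M V₀ (pairBits x a) = pairBits x a := by
          unfold stp
          rw [hD]
          simp
        have e' : ∀ j, (stp M V₀)^[j] (pairBits x a) = pairBits x a := fun j =>
          Function.iterate_fixed e j
        rw [e, e', hD]
        simp only [Alg.run, hD, Option.some.injEq] at h
        rw [← h]
        simp
      | false =>
        simp only [Alg.run, hD] at h
        have e : stp M V₀ (pairBits x a) = pairBits x (a ++ [O z]) := by
          unfold stp
          rw [hD]
          simp only [List.head?_cons, if_true, List.tail_cons, hO, pair_snoc]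
          exact rfl
        rw [e]
        exact ih _ _ h

theorem d1_zero (A : Oracle) (S L : Set (List Bool)) (hS : IsSig A 0 S)
    (hL : IsP (chi S) L) : IsSig A 1 L := by
  obtain ⟨V₀, p₀, hV₀, hS⟩ := hS
  obtain ⟨V, ⟨M, hM⟩, hV⟩ := hL
  refine IsSig.of_isP ?_ 1
  have h1 : IsFP A (fun x => (stp M V₀)^[M.p.eval x.length] (pairBits x [])) := by
    refine IsFP.loop (isFP_stp M hV₀) (poly_pairBits Poly.id (NPC.Poly.const [])) M.p
      (Polynomial.C 2 * Polynomial.X + Polynomial.C 1 + M.p) ?_
    intro x i hi
    refine (length_stp M V₀ i _).trans ?_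
    rw [length_pairBits]
    simp only [Polynomial.eval_add, Polynomial.eval_mul, Polynomial.eval_C, Polynomial.eval_X,
      List.length_nil]
    omega
  have h2 : Poly (fun y : List Bool => if M.D y = [true, true] then [true] else
      ([] : List Bool)) :=
    Poly.ite (p := fun y => M.D y = [true, true]) (Poly.decide_eq (poly_D M) (NPC.Poly.const _))
      (NPC.Poly.const _) (NPC.Poly.const _)
  refine ⟨_, IsFP.comp (IsFP.of_poly h2) h1, fun x => ?_⟩
  rw [hV]
  have hO : ∀ q, chi S q = decide (V₀ q = [true]) := by
    intro q
    unfold chi
    have := hS q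
    simp only [Quant] at this
    simp [this]
  have := run_stp M V₀ (chi S) hO x (M.p.eval x.length) [] (V x) (hM x)
  rw [this]
  split <;> simp_all

theorem d1 : S_D1 := by
  intro A k S L hS hL
  cases k with
  | zero => exact d1_zero A S L hS hL
  | succ j => exact d1_succ A j S L hS hL

end Pool.Agent.W2helper57.LC.DC
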