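import Pool.Agent.W2helper57.LC.Good

/-! Removal of the long codes: one step. -/

set_option autoImplicit false

namespace Pool.Agent.W2helper57.LC

open Pool.Agent.NPC Pool.Agent.H620R2.Gauge Pool.Agent.H591R3.PHG Pool.Agent.TH678.GC
  Pool.Agent.W2helper58.GU Pool.Agent.H622R2

/-- one question, as a Boolean -/
theorem UFP.ask1 {fl : List Bool → Bool} {q : List Bool → List Bool} (hfl : Poly fl)
    (hq : Poly q) : UFP (fun B z => [fl z && B (q z)]) :=
  UFP.ask (H := fun p => [fl p.1 && p.2]) hq
    (Poly.cons (Poly.and (hfl.comp (Poly.fst Poly.id)) (Poly.snd Poly.id)) (NPC.Poly.const []))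

/-- substitution of an oracle which is computed with one question -/
theorem USg.subst (hSUB : S_SUB) (hGTU : S_GTU) {k : ℕ} {S : Oracle → Set (List Bool)}
    (hS : USg k S) {fl : List Bool → Bool} {qu ar : List Bool → List Bool} (hfl : Poly fl)
    (hqu : Poly qu) (har : Poly ar) :
    USg k (fun B => {z | ar z ∈ S (fun q => fl (pairBits z q) && B (qu (pairBits z q)))}) := by
  obtain ⟨V, p, hV, h⟩ := hS
  have h1 := hSUB V _ hV (UFP.ask1 hfl hqu)
  have h2 := hGTU k _ (fun z => p.eval (ar z).length) ar h1 ((UPoly.length har).eval p) har
  refine (congrArg (USg k) (funext fun B => ?_)).mp h2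
  ext z
  simp only [Set.mem_ofPred_eq]
  rw [h]
  simp only [unpair_pairBits, List.cons.injEq, and_true, decide_eq_true_eq, Bool.decide_eq_true]

/-- a polynomial-time reduction -/
theorem USg.pre (hSUB : S_SUB) (hGTU : S_GTU) {k : ℕ} {S : Oracle → Set (List Bool)}
    (hS : USg k S) {ar : List Bool → List Bool} (har : Poly ar) :
    USg k (fun B => {z | ar z ∈ S B}) := by
  have h := USg.subst hSUB hGTU hS (fl := fun _ => true) (qu := fun z => (unpair z).2)
    (NPC.Poly.const true) (Poly.snd poly_unpair) har
  refine (congrArg (USg k) (funext fun B => ?_)).mp h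
  ext z
  simp only [Set.mem_ofPred_eq, unpair_pairBits, Bool.true_and]

/-! ### Polynomials -/

theorem poly_tail' {α : Type} [TEnc α] {f : α → List Bool} (hf : Poly f) :
    Poly (fun a => (f a).tail) := Poly.tail hf

/-- is the string a position of the free column? -/
def isPos (q : List Bool) : Bool := decide (q.take 3 = [true, true, true])

theorem poly_isPos : Poly isPos :=
  Poly.decide_eq (PPH.poly_take Poly.id (NPC.Poly.const 3)) (NPC.Poly.const _)

theorem isPos_pos (v : List Bool) : isPos (pos v) = true := by simp [isPos, pos]

theorem eq_pos {q : List Bool} (h : isPos q = true) : q = pos (q.drop 3) := by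
  unfold isPos at h
  rw [decide_eq_true_eq] at h
  conv_lhs => rw [← List.take_append_drop 3 q, h]
  rfl

theorem drop_pos (v : List Bool) : (pos v).drop 3 = v := rfl

theorem length_pos (v : List Bool) : (pos v).length = v.length + 3 := rfl

theorem base_pos (G F : Oracle) (v : List Bool) : base G F (pos v) = F v := rfl

theorem base_not {G F F' : Oracle} {q : List Bool} (h : isPos q = false) :
    base G F q = base G F' q := by
  rcases q with _ | ⟨a, _ | ⟨b, _ | ⟨c, v⟩⟩⟩
  · rfl
  · cases a <;> rfl
  · cases a <;> cases b <;> rfl
  · cases a <;> cases b <;> cases c <;> first | rfl | (simp [isPos] at h)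

section

variable {Φ : Oracle → Oracle → Oracle} {W : List Bool → Bool} {N : ℕ} (hΦ : Good Φ W N)
  {A : Oracle → Set (List Bool)} {b : Polynomial ℕ}
  (hb : ∀ (B B' : Oracle) (x : List Bool),
    (∀ q : List Bool, q.length ≤ b.eval x.length → B q = B' q) → (x ∈ A B ↔ x ∈ A B'))
  (m : ℕ)

/-- the truncated column -/
noncomputable def Ft (t : ℕ) (G F : Oracle) : Oracle := ins N m F (tr3 t (DD hΦ hb m G F))

theorem Ft_agree {t a : ℕ} (hat : a < t) (G F : Oracle) : ∀ q : List Bool, q.length + 3 ≤ a →
    ins N m F (DD hΦ hb m G F) q = Ft hΦ hb m t G F q := by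
  intro q hq
  unfold Ft ins tr3
  by_cases h : isNew N m q = true
  · rw [if_pos h, if_pos h, if_pos (by omega)]
  · rw [if_neg h, if_neg h]

theorem Nx_agree {t a : ℕ} (hat : a < t) (G F : Oracle) : ∀ q : List Bool, q.length ≤ a →
    Nx hΦ hb m G F q = Φ G (Ft hΦ hb m t G F) q :=
  hΦ.loc a G G _ _ (fun _ _ => rfl) (Ft_agree hΦ hb m hat G F)

/-- which bits are asked -/
noncomputable def dfl (W : List Bool → Bool) (N m : ℕ) (b : Polynomial ℕ) (c : ℕ) (zz : List Bool) : Bool :=
  if (unpair zz).2.head? = some true then
    decide ((unpair zz).2.tail.length < (unpair (unpair zz).1).2.length)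
  else if (unpair zz).2.head? = some false then
    (if isPos (unpair zz).2.tail = true then
      (if W ((unpair zz).2.tail.drop 3) = true then false else
        (if isNew N m ((unpair zz).2.tail.drop 3) = true then
          decide (((unpair zz).2.tail.drop 3).length + 3 <
            (Polynomial.X ^ c : Polynomial ℕ).eval (unpair (unpair zz).1).2.length) &&
          ok b N ((unpair zz).2.tail.drop 3)
        else true))
    else true)
  else false

/-- what is asked -/
def dqu (N m : ℕ) (zz : List Bool) : List Bool :=
  if (unpair zz).2.head? = some false ∧ isPos (unpair zz).2.tail = true ∧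
      isNew N m ((unpair zz).2.tail.drop 3) = true then
    false :: arg N ((unpair zz).2.tail.drop 3)
  else true :: (unpair zz).2.tail

theorem poly_dfl {W : List Bool → Bool} (hW : Poly W) (N m : ℕ) (b : Polynomial ℕ) (c : ℕ) :
    Poly (dfl W N m b c) := by
  have hq : Poly (fun zz : List Bool => (unpair zz).2) := Poly.snd poly_unpair
  have ht : Poly (fun zz : List Bool => (unpair zz).2.tail) := Poly.tail hq
  have hv : Poly (fun zz : List Bool => (unpair zz).2.tail.drop 3) :=
    PPH.poly_drop ht (NPC.Poly.const 3)
  have hu : Poly (fun zz : List Bool => (unpair (unpair zz).1).2) :=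
    Poly.snd (poly_unpair.comp (Poly.fst poly_unpair))
  unfold dfl
  refine Poly.ite (Poly.decide_eq (Poly.head? hq) (NPC.Poly.const _))
    (Poly.decide_lt (Poly.length ht) (Poly.length hu))
    (Poly.ite (Poly.decide_eq (Poly.head? hq) (NPC.Poly.const _)) ?_ (NPC.Poly.const false))
  refine Poly.ite (Poly.decide_eq (poly_isPos.comp ht) (NPC.Poly.const _)) ?_
    (NPC.Poly.const true)
  refine Poly.ite (Poly.decide_eq (hW.comp hv) (NPC.Poly.const _)) (NPC.Poly.const false) ?_
  refine Poly.ite (Poly.decide_eq ((poly_isNew N m).comp hv) (NPC.Poly.const _)) ?_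
    (NPC.Poly.const true)
  exact Poly.and (Poly.decide_lt ((UPoly.length hv).add (UPoly.const 3)).toPoly
    ((UPoly.length hu).eval _).toPoly) ((poly_ok b N).comp hv)

theorem poly_dqu (N m : ℕ) : Poly (dqu N m) := by
  have hq : Poly (fun zz : List Bool => (unpair zz).2) := Poly.snd poly_unpair
  have ht : Poly (fun zz : List Bool => (unpair zz).2.tail) := Poly.tail hq
  have hv : Poly (fun zz : List Bool => (unpair zz).2.tail.drop 3) :=
    PPH.poly_drop ht (NPC.Poly.const 3)
  unfold dqu
  exact Poly.ite (Poly.decide_and (Poly.decide_eq (Poly.head? hq) (NPC.Poly.const _))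
    (Poly.decide_and (Poly.decide_eq (poly_isPos.comp ht) (NPC.Poly.const _))
      (Poly.decide_eq ((poly_isNew N m).comp hv) (NPC.Poly.const _))))
    (Poly.cons (NPC.Poly.const false) ((poly_arg' N).comp hv))
    (Poly.cons (NPC.Poly.const true) ht)

/-- the computation of the oracle with longer codes from the oracle with shorter codes and `A` -/
theorem down_eq (G F : Oracle) {n c t : ℕ} (ht : t ^ 2 = n ^ c) (hnt : n ≤ t) (x q : List Bool) :
    (dfl W N m b c (pairBits (pairBits x (List.replicate n true)) q) &&
      join (chi (A (Φ G (Ft hΦ hb m t G F)))) (Φ G (Ft hΦ hb m t G F))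
        (dqu N m (pairBits (pairBits x (List.replicate n true)) q))) =
      join (base G (off W (Ft hΦ hb m (n ^ c) G F))) (cut n (Nx hΦ hb m G F)) q := by
  classical
  have e1 : dfl W N m b c (pairBits (pairBits x (List.replicate n true)) q) =
      (if q.head? = some true then decide (q.tail.length < n)
      else if q.head? = some false then
        (if isPos q.tail = true then
          (if W (q.tail.drop 3) = true then false else
            (if isNew N m (q.tail.drop 3) = true then
              decide ((q.tail.drop 3).length + 3 < n ^ c) && ok b N (q.tail.drop 3)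
            else true))
        else true)
      else false) := by
    unfold dfl
    simp only [unpair_pairBits, List.length_replicate, Polynomial.eval_pow, Polynomial.eval_X]
  have e2 : dqu N m (pairBits (pairBits x (List.replicate n true)) q) =
      (if q.head? = some false ∧ isPos q.tail = true ∧ isNew N m (q.tail.drop 3) = true then
        false :: arg N (q.tail.drop 3)
      else true :: q.tail) := by
    unfold dqu
    simp only [unpair_pairBits]
  rw [e1, e2]
  rcases q with _ | ⟨a, q⟩
  · rfl
  cases a with
  | true =>
    simp only [List.head?_cons, List.tail_cons, if_true, Option.some.injEq, Bool.true_eq_false,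
      false_and, if_false]
    change (decide (q.length < n) && Φ G (Ft hΦ hb m t G F) q) = cut n (Nx hΦ hb m G F) q
    unfold cut
    by_cases h : q.length < n
    · rw [if_pos h, decide_eq_true h, Bool.true_and]
      exact (Nx_agree hΦ hb m (a := q.length) (by omega) G F q le_rfl).symm
    · rw [if_neg h, decide_eq_false h, Bool.false_and]
  | false =>
    simp only [List.head?_cons, List.tail_cons, if_true, Option.some.injEq, Bool.false_eq_true,
      if_false, true_and]
    cases hp : isPos q with
    | false =>
      simp only [Bool.false_eq_true, if_false, false_and, Bool.true_and]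
      change Φ G (Ft hΦ hb m t G F) q = base G (off W (Ft hΦ hb m (n ^ c) G F)) q
      obtain ⟨F', hF'⟩ := hΦ.shape G (Ft hΦ hb m t G F)
      rw [hF']
      exact base_not hp
    | true =>
      obtain ⟨v, rfl⟩ : ∃ v, q = pos v := ⟨_, eq_pos hp⟩
      simp only [drop_pos, if_true, true_and]
      change _ = off W (Ft hΦ hb m (n ^ c) G F) v
      unfold off
      cases hw : W v with
      | true => simp
      | false =>
        simp only [Bool.false_eq_true, if_false]
        cases hn : isNew N m v with
        | false =>
          simp only [Bool.false_eq_true, if_false, Bool.true_and]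
          change Φ G (Ft hΦ hb m t G F) (pos v) = _
          rw [hΦ.free _ _ _ hw]
          unfold Ft ins
          rw [if_neg (by simp [hn]), if_neg (by simp [hn])]
        | true =>
          simp only [if_true]
          change ((decide (v.length + 3 < n ^ c) && ok b N v) &&
            decide (arg N v ∈ A (Φ G (Ft hΦ hb m t G F)))) = _
          unfold Ft ins tr3
          rw [if_pos hn]
          by_cases hl : v.length + 3 < n ^ c
          · rw [if_pos hl, decide_eq_true hl, Bool.true_and, DD_spec]
            unfold vl
            rw [hn, Bool.true_and]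
            cases hok : ok b N v with
            | false => rfl
            | true =>
              rw [Bool.true_and, Bool.true_and, decide_eq_decide]
              have h1 := ok_len hok
              have h2 : b.eval (arg N v).length < t := by
                rw [← ht] at hl
                by_contra hcon
                push Not at hcon
                have : t ^ 2 ≤ (b.eval (arg N v).length + 4) ^ 2 :=
                  Nat.pow_le_pow_left (by omega) 2
                omega
              apply hb
              intro q hq
              exact (Nx_agree hΦ hb m (a := b.eval (arg N v).length) h2 G F q hq).symm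
          · rw [if_neg hl, decide_eq_false hl]
            rfl

end

end Pool.Agent.W2helper57.LC
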