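import Pool.Agent.W2helper57.LC.Lower

/-! The oracle. -/

set_option autoImplicit false

namespace Pool.Agent.W2helper57.LC

open Pool.Agent.NPC Pool.Agent.H620R2.Gauge Pool.Agent.H591R3.PHG Pool.Agent.TH678.GC
  Pool.Agent.W2helper58.GU Pool.Agent.H622R2

/-! ### Compactness -/

theorem isOpen_Ag (n : ℕ) (A : Oracle) : IsOpen {B : Oracle | Ag n B A} := by
  obtain ⟨U, _, hU⟩ := exists_short n
  have h1 : {B : Oracle | Ag n B A} =
      ⋂ q ∈ U.filter (fun q => q.length ≤ n), {B : Oracle | B q = A q} := by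
    ext B
    simp only [Set.mem_ofPred_eq, Set.mem_iInter, Finset.mem_filter, and_imp]
    constructor
    · exact fun h q _ hq => h q hq
    · exact fun h q hq => h q (hU q hq) hq
  rw [h1]
  refine isOpen_biInter_finset fun q _ => ?_
  have h2 : Continuous (fun B : Oracle => B q) := continuous_apply q
  exact (isOpen_discrete ({A q} : Set Bool)).preimage h2

theorem continuous_Phi {Φ : Oracle → Oracle → Oracle} {W : List Bool → Bool} {N : ℕ}
    (hΦ : Good Φ W N) : Continuous (fun p : Oracle × Oracle => Φ p.1 p.2) := by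
  refine continuous_pi fun q => ?_
  rw [continuous_iff_continuousAt]
  rintro ⟨G, F⟩
  have h1 : {p : Oracle × Oracle | Ag q.length p.1 G ∧ Ag q.length p.2 F} ∈ nhds (G, F) := by
    refine IsOpen.mem_nhds ?_ ⟨fun _ _ => rfl, fun _ _ => rfl⟩
    exact ((isOpen_Ag q.length G).preimage continuous_fst).inter
      ((isOpen_Ag q.length F).preimage continuous_snd)
  have h2 : (fun _ : Oracle × Oracle => Φ G F q) =ᶠ[nhds (G, F)]
      fun p : Oracle × Oracle => Φ p.1 p.2 q := by
    filter_upwards [h1] with p hp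
    exact (hΦ.loc q.length p.1 G p.2 F (fun u hu => hp.1 u (by omega))
      (fun u hu => hp.2 u (by omega)) q le_rfl).symm
  exact continuousAt_const.congr h2

theorem St.isCompact (s : St) : IsCompact s.C := by
  have h1 : IsClosed {p : Oracle × Oracle | Cnd s.g s.f s.m p.1 p.2} := by
    have h2 : {p : Oracle × Oracle | Cnd s.g s.f s.m p.1 p.2} =
        (⋂ (q : List Bool) (_ : q.length + 1 ≤ s.m), {p : Oracle × Oracle | p.1 q = s.g q}) ∩
        ⋂ (q : List Bool) (_ : q.length + 3 ≤ s.m), {p : Oracle × Oracle | p.2 q = s.f q} := by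
      ext p
      simp only [Cnd, Set.mem_ofPred_eq, Set.mem_inter_iff, Set.mem_iInter]
    rw [h2]
    refine IsClosed.inter (isClosed_iInter fun q => isClosed_iInter fun _ => ?_)
      (isClosed_iInter fun q => isClosed_iInter fun _ => ?_)
    · exact isClosed_eq ((continuous_apply q).comp continuous_fst) continuous_const
    · exact isClosed_eq ((continuous_apply q).comp continuous_snd) continuous_const
  have h3 : s.C = (fun p : Oracle × Oracle => s.Φ p.1 p.2) ''
      {p : Oracle × Oracle | Cnd s.g s.f s.m p.1 p.2} := by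
    ext O
    constructor
    · rintro ⟨G, F, h, rfl⟩
      exact ⟨(G, F), h, rfl⟩
    · rintro ⟨⟨G, F⟩, h, rfl⟩
      exact ⟨G, F, h, rfl⟩
  rw [h3]
  exact h1.isCompact.image (continuous_Phi s.good)

theorem St.nonempty (s : St) : s.C.Nonempty :=
  ⟨s.Φ s.g s.f, s.g, s.f, ⟨fun _ _ => rfl, fun _ _ => rfl⟩, rfl⟩

/-! ### The construction -/

/-- the requirements, together -/
def Ok (k : ℕ) (e e' : Alg × Polynomial ℕ) (O : Oracle) : Prop :=
  ((∃ z, ¬ (z ∈ Kk k (join (chi (SM k e O)) O) ↔ z ∈ SM k e' O)) ∨ IsP O (SM k e O)) ∧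
    ∃ z, ¬ (z ∈ Kk (k + 1) O ↔ z ∈ SM k e' O)

theorem req_AB (hSUB : S_SUB) (hKC : S_KC) (s : St) (k : ℕ) (e e' : Alg × Polynomial ℕ) :
    ∃ s' : St, s'.C ⊆ s.C ∧ ∀ O ∈ s'.C, Ok k e e' O := by
  obtain ⟨s₁, h1, h2⟩ := req_A hSUB (W2helper85.LC.gtu s_SEQ) hKC (W2helper85.LC.mru s_SEQ)
    (W2helper85.LC.peelu s_SEQ) s k e e'
  obtain ⟨s₂, h3, h4⟩ := req_B hKC s₁ k e'
  refine ⟨s₂, h3.trans h1, fun O hO => ⟨?_, h4 O hO⟩⟩
  rcases h2 with h2 | h2
  · exact Or.inl (h2 O (h3 hO))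
  · exact Or.inr (h2 O (h3 hO))

theorem exists_oracle (hSUB : S_SUB) (hKC : S_KC) : ∃ O : Oracle,
    (∃ G F, O = base G F) ∧ ∀ (k : ℕ) (e e' : Alg × Polynomial ℕ), Ok k e e' O := by
  obtain ⟨en, hen⟩ := exists_en
  -- the initial state
  let s₀ : St := ⟨base, fun _ => false, 0, fun _ => false, fun _ => false, 0, good_base, 0,
    fun k _ => rem_base hSUB (W2helper85.LC.gtu s_SEQ) k _ _ _⟩
  choose nx h1 h2 using req_AB hSUB hKC
  let idx : ℕ → ℕ × ℕ × ℕ := fun i => (i.unpair.1, i.unpair.2.unpair)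
  let sq : ℕ → St := fun n => Nat.rec s₀ (fun i s => nx s (idx i).1 (en (idx i).2.1)
    (en (idx i).2.2)) n
  have hs : ∀ i, sq (i + 1) = nx (sq i) (idx i).1 (en (idx i).2.1) (en (idx i).2.2) :=
    fun i => rfl
  have hne : (⋂ i, (sq i).C).Nonempty := by
    apply IsCompact.nonempty_iInter_of_sequence_nonempty_isCompact_isClosed
    · intro i
      rw [hs]
      exact h1 _ _ _ _
    · exact fun i => (sq i).nonempty
    · exact (sq 0).isCompact
    · exact fun i => (sq i).isCompact.isClosed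
  obtain ⟨O, hO⟩ := hne
  rw [Set.mem_iInter] at hO
  refine ⟨O, ?_, fun k e e' => ?_⟩
  · obtain ⟨G, F, _, h⟩ := hO 0
    exact ⟨G, F, h⟩
  · obtain ⟨a, ha⟩ := hen e
    obtain ⟨a', ha'⟩ := hen e'
    have h := hO (Nat.pair k (Nat.pair a a') + 1)
    rw [hs] at h
    have h3 := h2 _ _ _ _ O h
    have e1 : idx (Nat.pair k (Nat.pair a a')) = (k, a, a') := by
      simp [idx]
    rw [e1] at h3
    simp only [ha, ha'] at h3
    exact h3

/-- **The oracle.** -/
theorem main (hSUB : S_SUB) (hKC : S_KC) (hKM : S_KM) : ∃ O : Oracle,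
    (∀ k : ℕ, ∃ L, IsSig O (k + 1) L ∧ ¬ IsSig O k L) ∧
    ∀ (k : ℕ) (B : Set (List Bool)), (∀ L, IsSig (join (chi B) O) k L → IsSig O k L) →
      IsP O B := by
  obtain ⟨O, ⟨G, F, hO⟩, hOk⟩ := exists_oracle hSUB hKC
  have hU1 : ∀ s, O (true :: true :: false :: s) = Ub Dh s := by
    intro s
    rw [hO]
    rfl
  have hU2 : ∀ B : Oracle, ∀ s, join B O (true :: true :: false :: s) = Ub Dh s := by
    intro B s
    rw [hO]
    rfl
  refine ⟨O, fun k => ⟨Kk (k + 1) O, hKM O (k + 1) hU1, fun h => ?_⟩, fun k B hB => ?_⟩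
  · obtain ⟨e, he⟩ := exists_SM h
    obtain ⟨z, hz⟩ := (hOk k e e).2
    apply hz
    rw [he]
  · -- `B` is in `Σ_k`
    have h1 : IsSig (join (chi B) O) k B := by
      apply IsSig.of_isP
      refine ⟨fun x => [join (chi B) O (false :: x)], ?_, fun x => ?_⟩
      · exact (UFP.ask (q := fun x => false :: x) (Poly.cons (NPC.Poly.const false) Poly.id)
          (H := fun p => [p.2]) (Poly.cons (Poly.snd Poly.id) (NPC.Poly.const []))).isFP _
      · change x ∈ B ↔ [chi B x] = [true]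
        unfold chi
        simp
    obtain ⟨e, he⟩ := exists_SM (hB B h1)
    obtain ⟨e', he'⟩ := exists_SM (hB _ (hKM (join (chi B) O) k (hU2 _)))
    rcases (hOk k e e').1 with ⟨z, hz⟩ | h
    · exfalso
      apply hz
      rw [← he, he']
    · rw [he]
      exact h

end Pool.Agent.W2helper57.LC
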