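import Pool.Agent.W2helper57.LC.Removal
import Pool.Agent.W2helper58.GU.Fin

/-! Lowness; the base; the states of the construction. -/

set_option autoImplicit false

namespace Pool.Agent.W2helper57.LC

open Pool.Agent.NPC Pool.Agent.H620R2.Gauge Pool.Agent.H591R3.PHG Pool.Agent.TH678.GC
  Pool.Agent.W2helper58.GU Pool.Agent.H622R2

/-! ### Lowness -/

theorem lowU_of_K (hSUB : S_SUB) (hGTU : S_GTU) (hKC : S_KC) {k : ℕ}
    {Φ : Oracle → Oracle → Oracle} {g f : Oracle} {m : ℕ} {A : Oracle → Set (List Bool)}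
    {e : Alg × Polynomial ℕ} (h : ∀ G F : Oracle, Cnd g f m G F → ∀ z : List Bool,
      (z ∈ Kk k (join (chi (A (Φ G F))) (Φ G F)) ↔ z ∈ SM k e (Φ G F))) :
    LowU k Φ g f m A := by
  intro S hS
  obtain ⟨φ, hφ, h1⟩ := hKC k S hS
  refine ⟨_, USg.pre hSUB hGTU (uSg_SM k e) hφ, fun G F hGF x => ?_⟩
  rw [h1, h G F hGF]
  rfl

theorem lowU_succ (hMRU : S_MRU) (hPEELU : S_PEELU) {k : ℕ}
    {Φ : Oracle → Oracle → Oracle} {g f : Oracle} {m : ℕ} {A : Oracle → Set (List Bool)}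
    (h : LowU k Φ g f m A) : LowU (k + 1) Φ g f m A := by
  intro S hS
  obtain ⟨S₁, n, hS₁, hn, h1⟩ := hPEELU k S hS
  obtain ⟨S₂, hS₂, h2⟩ := h S₁ hS₁
  refine ⟨_, hMRU k S₂ n hS₂ hn, fun G F hGF x => ?_⟩
  rw [h1]
  simp only [Set.mem_ofPred_eq]
  exact exists_congr fun w => and_congr_right fun _ => not_congr (h2 G F hGF _)

theorem lowU_mono (hMRU : S_MRU) (hPEELU : S_PEELU) {k k' : ℕ} (hk : k ≤ k')
    {Φ : Oracle → Oracle → Oracle} {g f : Oracle} {m : ℕ} {A : Oracle → Set (List Bool)}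
    (h : LowU k Φ g f m A) : LowU k' Φ g f m A := by
  induction hk with
  | refl => exact h
  | step _ ih => exact lowU_succ hMRU hPEELU ih

/-! ### The base -/

theorem good_base : Good base (fun _ => false) 0 where
  polyW := NPC.Poly.const false
  fresh := fun _ _ _ => rfl
  shape := fun G F => ⟨F, rfl⟩
  free := fun _ _ _ _ => rfl
  loc := by
    intro n G G' F F' hG hF q hq
    rcases q with _ | ⟨a, _ | ⟨b, _ | ⟨c, v⟩⟩⟩
    · rfl
    · cases a with
      | false => exact hG [] (by simpa using hq)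
      | true => rfl
    · cases a with
      | false => exact hG [b] (by simpa using hq)
      | true => cases b <;> rfl
    · cases a with
      | false => exact hG (b :: c :: v) (by simpa using hq)
      | true =>
        cases b with
        | false => rfl
        | true =>
          cases c with
          | false => rfl
          | true =>
            refine hF v ?_
            simp only [List.length_cons] at hq
            omega

theorem rem_base (hSUB : S_SUB) (hGTU : S_GTU) (k : ℕ) (g f : Oracle) (m : ℕ) :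
    Rem k base (fun _ => false) g f m := by
  intro S hS d
  have h := USg.subst hSUB hGTU hS (fl := fun _ => true) (qu := fun zz => false :: (unpair zz).2)
    (ar := fun z => (unpair z).1) (NPC.Poly.const true)
    (Poly.cons (NPC.Poly.const false) (Poly.snd poly_unpair)) (Poly.fst poly_unpair)
  refine ⟨_, 0, h, fun n _ G F _ x _ => ?_⟩
  simp only [Set.mem_ofPred_eq, unpair_pairBits, Bool.true_and]
  rfl

/-! ### States -/

/-- a state of the construction -/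
structure St : Type where
  Φ : Oracle → Oracle → Oracle
  W : List Bool → Bool
  N : ℕ
  g : Oracle
  f : Oracle
  m : ℕ
  good : Good Φ W N
  rem : ∃ K : ℕ, ∀ k ≥ K, Rem k Φ W g f m

/-- the oracles of a state -/
def St.C (s : St) : Set Oracle := {O | ∃ G F, Cnd s.g s.f s.m G F ∧ O = s.Φ G F}

theorem Rem.mono {k : ℕ} {Φ : Oracle → Oracle → Oracle} {W : List Bool → Bool} {g f : Oracle}
    {m : ℕ} (h : Rem k Φ W g f m) {g' f' : Oracle} {m' : ℕ}
    (hc : ∀ G F, Cnd g' f' m' G F → Cnd g f m G F) : Rem k Φ W g' f' m' := by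
  intro S hS d
  obtain ⟨S', n₀, h1, h2⟩ := h S hS d
  exact ⟨S', n₀, h1, fun n hn G F hGF => h2 n hn G F (hc G F hGF)⟩

theorem Cnd.trans {g f G₀ F₀ : Oracle} {m m' : ℕ} (h : Cnd g f m G₀ F₀) (hm : m ≤ m')
    {G F : Oracle} (h' : Cnd G₀ F₀ m' G F) : Cnd g f m G F :=
  ⟨fun q hq => (h'.1 q (by omega)).trans (h.1 q hq),
    fun q hq => (h'.2 q (by omega)).trans (h.2 q hq)⟩

/-- a smaller neighbourhood -/
def St.refine (s : St) {G₀ F₀ : Oracle} (h : Cnd s.g s.f s.m G₀ F₀) {m' : ℕ} (hm : s.m ≤ m') :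
    St where
  Φ := s.Φ
  W := s.W
  N := s.N
  g := G₀
  f := F₀
  m := m'
  good := s.good
  rem := by
    obtain ⟨K, hK⟩ := s.rem
    exact ⟨K, fun k hk => (hK k hk).mono fun G F h' => h.trans hm h'⟩

theorem St.refine_sub (s : St) {G₀ F₀ : Oracle} (h : Cnd s.g s.f s.m G₀ F₀) {m' : ℕ}
    (hm : s.m ≤ m') : (s.refine h hm).C ⊆ s.C := by
  rintro O ⟨G, F, h1, h2⟩
  exact ⟨G, F, h.trans hm h1, h2⟩

theorem St.refine_agree (s : St) {G₀ F₀ : Oracle} (h : Cnd s.g s.f s.m G₀ F₀) {m' : ℕ}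
    (hm : s.m ≤ m') {O : Oracle} (hO : O ∈ (s.refine h hm).C) (q : List Bool)
    (hq : q.length ≤ m') : O q = s.Φ G₀ F₀ q := by
  obtain ⟨G, F, h1, rfl⟩ := hO
  exact s.good.loc m' G G₀ F F₀ h1.1 h1.2 q hq

/-- Something which depends on finitely many bits can be preserved. -/
theorem St.force (s : St) {P : Oracle → Prop} (hP : ∀ O, P O → ∃ ℓ : ℕ, ∀ O' : Oracle,
    (∀ q : List Bool, q.length ≤ ℓ → O' q = O q) → P O')
    {O : Oracle} (hO : O ∈ s.C) (h : P O) : ∃ s' : St, s'.C ⊆ s.C ∧ ∀ O' ∈ s'.C, P O' := by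
  obtain ⟨G₀, F₀, h1, rfl⟩ := hO
  obtain ⟨ℓ, hℓ⟩ := hP _ h
  refine ⟨s.refine h1 (le_max_left s.m ℓ), s.refine_sub h1 _, fun O' hO' => hℓ O' fun q hq => ?_⟩
  exact s.refine_agree h1 _ hO' q (hq.trans (le_max_right _ _))

/-! ### Locality -/

theorem SM_local (k : ℕ) (e : Alg × Polynomial ℕ) (z : List Bool) : ∃ ℓ : ℕ, ∀ O O' : Oracle,
    (∀ q : List Bool, q.length ≤ ℓ → O q = O' q) → (z ∈ SM k e O ↔ z ∈ SM k e O') := by
  obtain ⟨b, hb⟩ := (uSg_SM k e).local
  exact ⟨b.eval z.length, fun O O' h => hb O O' z h⟩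

theorem quant_congr' {m : ℕ} {V V' : List Bool → List Bool} (h : ∀ z, V z = V' z) (k : ℕ)
    (b : Bool) (y : List Bool) : Quant m V k b y ↔ Quant m V' k b y :=
  quant_congr k b y fun z _ => h z

theorem Kk_local (k : ℕ) (z : List Bool) : ∃ ℓ : ℕ, ∀ O O' : Oracle,
    (∀ q : List Bool, q.length ≤ ℓ → O q = O' q) → (z ∈ Kk k O ↔ z ∈ Kk k O') := by
  refine ⟨(unpair (unpair (unpair z).2).2).2.length, fun O O' h => ?_⟩
  unfold Kk
  rw [Set.mem_ofPred_eq, Set.mem_ofPred_eq]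
  apply quant_congr'
  intro y
  rw [ev_congr (unpair z).1 y h]

theorem lang_local (k : ℕ) (x : List Bool) : ∃ ℓ : ℕ, ∀ O O' : Oracle,
    (∀ q : List Bool, q.length ≤ ℓ → O q = O' q) → (x ∈ lang k O ↔ x ∈ lang k O') := by
  refine ⟨x.length + (parse (k + 1) x).1.sum + (unpair (parse (k + 1) x).2).1.length,
    fun O O' h => ?_⟩
  unfold Pool.Agent.H591R3.PHG.lang
  rw [Set.mem_ofPred_eq, Set.mem_ofPred_eq, foldr_congr _ x fun u hu => h u hu]

/-- both sides of the first requirement are local -/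
theorem req_local (k : ℕ) (e e' : Alg × Polynomial ℕ) (z : List Bool) : ∃ ℓ : ℕ,
    ∀ O O' : Oracle, (∀ q : List Bool, q.length ≤ ℓ → O q = O' q) →
      ((z ∈ Kk k (join (chi (SM k e O)) O) ↔ z ∈ SM k e' O) ↔
        (z ∈ Kk k (join (chi (SM k e O')) O') ↔ z ∈ SM k e' O')) := by
  obtain ⟨ℓ₁, h1⟩ := Kk_local k z
  obtain ⟨ℓ₂, h2⟩ := SM_local k e' z
  obtain ⟨b, hb⟩ := (uSg_SM k e).local
  refine ⟨max (max ℓ₁ ℓ₂) (b.eval ℓ₁), fun O O' h => ?_⟩
  have e1 : z ∈ Kk k (join (chi (SM k e O)) O) ↔ z ∈ Kk k (join (chi (SM k e O')) O') := by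
    apply h1
    intro q hq
    rcases q with _ | ⟨a, q⟩
    · rfl
    rw [List.length_cons] at hq
    cases a with
    | true =>
      exact h q (le_trans (by omega) (le_trans (le_max_left _ _) (le_max_left _ _)))
    | false =>
      change chi (SM k e O) q = chi (SM k e O') q
      unfold chi
      rw [decide_eq_decide]
      apply hb
      intro r hr
      apply h
      exact (hr.trans (eval_mono b (show q.length ≤ ℓ₁ by omega))).trans (le_max_right _ _)
  have e2 : z ∈ SM k e' O ↔ z ∈ SM k e' O' := by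
    apply h2
    intro q hq
    exact h q (hq.trans (le_trans (le_max_right _ _) (le_max_left _ _)))
  rw [e1, e2]

/-! ### The first requirement -/

theorem req_A (hSUB : S_SUB) (hGTU : S_GTU) (hKC : S_KC) (hMRU : S_MRU) (hPEELU : S_PEELU)
    (s : St) (k : ℕ) (e e' : Alg × Polynomial ℕ) : ∃ s' : St, s'.C ⊆ s.C ∧
      ((∀ O ∈ s'.C, ∃ z, ¬ (z ∈ Kk k (join (chi (SM k e O)) O) ↔ z ∈ SM k e' O)) ∨
        ∀ O ∈ s'.C, IsP O (SM k e O)) := by
  by_cases h : ∀ G F : Oracle, Cnd s.g s.f s.m G F → ∀ z : List Bool,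
      (z ∈ Kk k (join (chi (SM k e (s.Φ G F))) (s.Φ G F)) ↔ z ∈ SM k e' (s.Φ G F))
  · have hlow := lowU_of_K hSUB hGTU hKC (A := SM k e) h
    obtain ⟨b, hb⟩ := (uSg_SM k e).local
    obtain ⟨K, hK⟩ := s.rem
    refine ⟨⟨Nx s.good hb s.m, Wx s.W s.N s.m, s.N + 1, s.g, s.f, s.m,
      good_Nx s.good hb s.m, max K k, fun k' hk' => ?_⟩, ?_, Or.inr ?_⟩
    · exact rem_Nx s.good hb s.m hSUB hGTU
        (lowU_mono hMRU hPEELU (le_trans (le_max_right _ _) hk') hlow)
        (hK k' (le_trans (le_max_left _ _) hk'))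
    · rintro O ⟨G, F, h1, rfl⟩
      exact ⟨G, _, cnd_ins s.m h1, rfl⟩
    · rintro O ⟨G, F, h1, rfl⟩
      exact Nx_isP s.good hb s.m G F
  · push Not at h
    obtain ⟨G₀, F₀, h1, z, hz⟩ := h
    have hz' : ¬ (z ∈ Kk k (join (chi (SM k e (s.Φ G₀ F₀))) (s.Φ G₀ F₀)) ↔
        z ∈ SM k e' (s.Φ G₀ F₀)) := by
      tauto
    obtain ⟨ℓ, hℓ⟩ := req_local k e e' z
    obtain ⟨s', h2, h3⟩ := s.force (P := fun O => ¬ (z ∈ Kk k (join (chi (SM k e O)) O) ↔
      z ∈ SM k e' O)) (fun O hO => ⟨ℓ, fun O' hO' => by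
        rw [hℓ O' O hO']
        exact hO⟩) ⟨G₀, F₀, h1, rfl⟩ hz'
    exact ⟨s', h2, Or.inl fun O hO => ⟨z, h3 O hO⟩⟩

end Pool.Agent.W2helper57.LC
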