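import Pool.Agent.W2helper57.LC.Sys

/-! The new functional has the same properties. -/

set_option autoImplicit false

namespace Pool.Agent.W2helper57.LC

open Pool.Agent.NPC Pool.Agent.H620R2.Gauge Pool.Agent.H591R3.PHG Pool.Agent.TH678.GC
  Pool.Agent.W2helper58.GU Pool.Agent.H622R2

theorem poly_isNew (N m : ℕ) : Poly (isNew N m) :=
  Poly.and (Poly.decide_eq (PPH.poly_take Poly.id (NPC.Poly.const (N + 1))) (NPC.Poly.const _))
    (Poly.decide_lt (NPC.Poly.const m) (((UPoly.length Poly.id).add (UPoly.const 3)).toPoly))

theorem poly_arg' (N : ℕ) : Poly (arg N) :=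
  Poly.fst (poly_unpair.comp (PPH.poly_drop Poly.id (NPC.Poly.const (N + 1))))

theorem poly_ok (b : Polynomial ℕ) (N : ℕ) : Poly (ok b N) := by
  have h1 : Poly (fun q : List Bool => (unpair (q.drop (N + 1))).2) :=
    Poly.snd (poly_unpair.comp (PPH.poly_drop Poly.id (NPC.Poly.const (N + 1))))
  have h2 : UPoly (fun q : List Bool => ((b + Polynomial.C 4) ^ 2).eval (arg N q).length) :=
    (UPoly.length (poly_arg' N)).eval _
  refine Poly.decide_le (h2.toPoly.congr fun q => ?_) (Poly.length h1)
  simp only [Polynomial.eval_pow, Polynomial.eval_add, Polynomial.eval_C]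

theorem isNew_other {N m s : ℕ} (h : N ≠ s) (v : List Bool) :
    isNew N m (List.replicate s true ++ false :: v) = false := by
  unfold isNew
  rw [Bool.and_eq_false_iff]
  left
  rw [decide_eq_false_iff_not]
  intro h1
  rcases Nat.lt_or_gt_of_ne h with h2 | h2
  · -- `N < s`
    have h3 : (List.replicate s true ++ false :: v)[N]? = some true := by
      rw [List.getElem?_append_left (by simpa using h2)]
      simp [h2]
    have h4 : (List.replicate s true ++ false :: v)[N]? = some false := by
      have : ((List.replicate s true ++ false :: v).take (N + 1))[N]? = some false := by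
        rw [h1]
        simp
      rwa [List.getElem?_take_of_lt (by omega)] at this
    rw [h3] at h4
    simp at h4
  · have h3 : (List.replicate s true ++ false :: v)[s]? = some false := by
      rw [List.getElem?_append_right (by simp)]
      simp
    have h4 : (List.replicate s true ++ false :: v)[s]? = some true := by
      have : ((List.replicate s true ++ false :: v).take (N + 1))[s]? = some true := by
        rw [h1]
        rw [List.getElem?_append_left (by simpa using h2)]
        simp [h2]
      rwa [List.getElem?_take_of_lt (by omega)] at this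
    rw [h3] at h4
    simp at h4

theorem isNew_self {N m : ℕ} {v : List Bool} (h : m ≤ v.length) :
    isNew N m (List.replicate N true ++ false :: v) = true := by
  unfold isNew
  rw [Bool.and_eq_true, decide_eq_true_eq, decide_eq_true_eq]
  constructor
  · rw [List.take_append]
    simp
  · simp only [List.length_append, List.length_replicate, List.length_cons]
    omega

theorem drop_self (N : ℕ) (v : List Bool) :
    (List.replicate N true ++ false :: v).drop (N + 1) = v := by
  rw [List.drop_append]
  simp

/-- a new string is in the column -/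
theorem isNew_eq {N m : ℕ} {q : List Bool} (h : isNew N m q = true) :
    (∃ v, q = List.replicate N true ++ false :: v) ∧ m < q.length + 3 := by
  unfold isNew at h
  rw [Bool.and_eq_true, decide_eq_true_eq, decide_eq_true_eq] at h
  refine ⟨⟨q.drop (N + 1), ?_⟩, h.2⟩
  conv_lhs => rw [← List.take_append_drop (N + 1) q, h.1]
  simp

section

variable {Φ : Oracle → Oracle → Oracle} {W : List Bool → Bool} {N : ℕ} (hΦ : Good Φ W N)
  {A : Oracle → Set (List Bool)} {b : Polynomial ℕ}
  (hb : ∀ (B B' : Oracle) (x : List Bool),
    (∀ q : List Bool, q.length ≤ b.eval x.length → B q = B' q) → (x ∈ A B ↔ x ∈ A B'))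
  (m : ℕ)

theorem cnd_ins {g f G F E : Oracle} (h : Cnd g f m G F) : Cnd g f m G (ins N m F E) := by
  refine ⟨h.1, fun q hq => ?_⟩
  unfold ins
  rw [if_neg, h.2 q hq]
  intro h1
  have := (isNew_eq h1).2
  omega

include hΦ in
theorem W_new {q : List Bool} (h : isNew N m q = true) : W q = false := by
  obtain ⟨⟨v, rfl⟩, _⟩ := isNew_eq h
  exact hΦ.fresh N le_rfl v

theorem good_Nx : Good (Nx hΦ hb m) (Wx W N m) (N + 1) where
  polyW := Poly.or hΦ.polyW (poly_isNew N m)
  fresh := by
    intro s hs v
    unfold Wx
    rw [hΦ.fresh s (by omega) v, isNew_other (by omega)]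
    rfl
  shape := fun G F => hΦ.shape G _
  free := by
    intro G F q hq
    unfold Wx at hq
    rw [Bool.or_eq_false_iff] at hq
    unfold Nx
    rw [hΦ.free _ _ _ hq.1]
    unfold ins
    rw [hq.2]
    rfl
  loc := by
    intro n G G' F F' hG hF q hq
    unfold Nx
    apply hΦ.loc n G G' _ _ hG _ q hq
    intro q' hq'
    unfold ins
    rw [hF q' hq']
    have h1 := fix_congr (a := q'.length + 1) (DD_spec hΦ hb m G F) (DD_spec hΦ hb m G' F')
      (fun q'' hq'' h2 => vl_local hΦ hb m (fun r hr => hG r (by omega))
        (fun r hr => hF r (by omega)) h2)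
    rw [h1 q' (by omega)]

/-- the code bit -/
theorem Nx_code (G F : Oracle) {q : List Bool} (hq : isNew N m q = true) :
    Nx hΦ hb m G F (pos q) = true ↔ ok b N q = true ∧ arg N q ∈ A (Nx hΦ hb m G F) := by
  unfold Nx
  rw [hΦ.free _ _ _ (W_new hΦ m hq)]
  unfold ins
  rw [if_pos hq, DD_spec]
  unfold vl
  simp only [hq, Bool.true_and, Bool.and_eq_true, decide_eq_true_eq]
  rfl

/-- the set is in `P` relative to the new oracle -/
theorem Nx_isP (G F : Oracle) : IsP (Nx hΦ hb m G F) (A (Nx hΦ hb m G F)) := by
  set O := Nx hΦ hb m G F with hO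
  set q : List Bool → List Bool := fun x => List.replicate N true ++ false ::
    pairBits x (List.replicate (((b + Polynomial.C 4) ^ 2 + Polynomial.C m).eval x.length) true)
    with hq
  have hpq : Poly (fun x => pos (q x)) := by
    have h1 : Poly (fun x : List Bool =>
        List.replicate (((b + Polynomial.C 4) ^ 2 + Polynomial.C m).eval x.length) true) := by
      have h2 : UPoly (fun x : List Bool =>
        ((b + Polynomial.C 4) ^ 2 + Polynomial.C m).eval x.length) :=
        (UPoly.length Poly.id).eval _
      refine (NPC.Poly.map (F := fun _ _ => true) h2 (NPC.Poly.const true)).congr fun x => ?_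
      simp
    exact Poly.cons (NPC.Poly.const true) (Poly.cons (NPC.Poly.const true)
      (Poly.cons (NPC.Poly.const true) (Poly.append (NPC.Poly.const _)
        (Poly.cons (NPC.Poly.const false) (poly_pairBits Poly.id h1)))))
  refine ⟨fun x => [O (pos (q x))], ?_, fun x => ?_⟩
  · exact (UFP.ask (q := fun x => pos (q x)) hpq (H := fun p => [p.2])
      (Poly.cons (Poly.snd Poly.id) (NPC.Poly.const []))).isFP O
  · have hlen : ((b + Polynomial.C 4) ^ 2 + Polynomial.C m).eval x.length =
        (b.eval x.length + 4) ^ 2 + m := by simp
    have h1 : isNew N m (q x) = true := by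
      rw [hq]
      apply isNew_self
      rw [length_pairBits, List.length_replicate, hlen]
      omega
    have h2 := Nx_code hΦ hb m G F h1
    have h3 : arg N (q x) = x := by
      unfold arg
      rw [hq]
      simp only
      rw [drop_self, unpair_pairBits]
    have h4 : ok b N (q x) = true := by
      unfold ok
      rw [h3, decide_eq_true_eq, hq]
      simp only
      rw [drop_self, unpair_pairBits, List.length_replicate, hlen]
      omega
    rw [h3, h4] at h2
    simp only [List.cons.injEq, and_true]
    rw [h2]
    simp [hO]

end

end Pool.Agent.W2helper57.LC
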