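import Pool.Agent.W2helper57.LC.Final
import Pool.Agent.W2helper95.LC.SUBLOOP
import Pool.Agent.W2helper95.LC.KCKM
import Pool.Agent.W2helper71.LC.LB
import Pool.Agent.W2helper85.LC.QUANT
import Pool.Agent.W2helper57.LC.DCopy
import Pool.Agent.W2helper61.LH.Fin

/-! The low classes, with the definitions of `Pool.Agent.W2helper61.LH.Defs`. -/

set_option autoImplicit false

namespace Pool.Agent.W2helper57.LC

open Pool.Agent.NPC Pool.Agent.H620R2.Gauge Pool.Agent.H591R3.PHG Pool.Agent.TH678.GC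
  Pool.Agent.H622R2 Pool.Agent.W2helper61.LH

theorem le_self (A : Oracle) : Le A A := isFP_self A

theorem le_chi_rel (O : Oracle) (B : Set (List Bool)) : Le (chi B) (rel O B) := isFP_right O _

theorem le_join_rel (O : Oracle) (B : Set (List Bool)) : Le (join (chi B) O) (rel O B) :=
  isFP_join (le_chi_rel O B) (isFP_left O _)

/-- `O` together with a language of `Σ_k` is a language of `Σ_k` -/
theorem sig_rel {O : Oracle} {k : ℕ} {N : Set (List Bool)} (hN : IsSig O k N) :
    IsSig O k {q | rel O N q = true} := by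
  have h0 : IsSig O k {z | O z = true} := by
    refine IsSig.of_isP ⟨fun q => [O q], isFP_self O, fun x => ?_⟩ k
    simp
  have h2 := DC.sig_ite (c := fun q => decide (q.take 1 = [true])) hN h0
    (Poly.decide_eq (PPH.poly_take Poly.id (NPC.Poly.const 1)) (NPC.Poly.const _))
    (f := fun q => q.tail) (g := fun q => q.tail) (Poly.tail Poly.id) (Poly.tail Poly.id)
  have h3 := DC.sig_ite (c := fun q => decide (q = []))
    (DC.sig_empty O k) h2
    (Poly.decide_eq Poly.id (NPC.Poly.const _)) (f := fun q => q) (g := fun q => q) Poly.id Poly.id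
  refine (congrArg (IsSig O k) (Set.ext fun q => ?_)).mp h3
  rcases q with _ | ⟨b, q⟩
  · simp [rel, join]
  · cases b <;> simp [rel, join]

/-- `Δ_(k+1) ⊆ Σ_(k+1)` -/
theorem sig_of_delta {O : Oracle} {k : ℕ} {L : Set (List Bool)} (h : IsDelta O (k + 1) L) :
    IsSig O (k + 1) L := by
  obtain ⟨N, hN, hL⟩ := h
  refine DC.d1 O k {q | rel O N q = true} L (sig_rel hN) ?_
  have : chi {q | rel O N q = true} = rel O N := by
    funext q
    unfold chi
    simp
  rw [this]
  exact hL

/-- the complement of a language of `Σ_k` is in `Δ_(k+1)` -/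
theorem delta_compl {O : Oracle} {k : ℕ} {N : Set (List Bool)} (hN : IsSig O k N) :
    IsDelta O (k + 1) Nᶜ := by
  refine ⟨N, hN, fun q => [!(chi N q)], ?_, fun x => ?_⟩
  · have h := IsFP.comp (IsFP.of_poly (A := rel O N) (F := fun a => if a = [true] then [false] else
      [true]) (Poly.ite (Poly.decide_eq Poly.id (NPC.Poly.const _)) (NPC.Poly.const _)
      (NPC.Poly.const _))) (le_chi_rel O N)
    refine (congrArg (IsFP (rel O N)) (funext fun q => ?_)).mp h
    by_cases hq : q ∈ N <;> simp [chi, hq]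
  · unfold chi
    simp

/-- lowness for `Δ_(k+1)` implies lowness for `Σ_(k+1)` -/
theorem sig_low_of_delta_low {O : Oracle} {k : ℕ} {B : Set (List Bool)}
    (h : ∀ X, IsDelta (rel O B) (k + 1) X → IsDelta O (k + 1) X) {X : Set (List Bool)}
    (hX : IsSig (rel O B) (k + 1) X) : IsSig O (k + 1) X := by
  obtain ⟨L', n, hL', hn, hXL⟩ := W2helper85.LC.peeln _ _ _ hX
  have h1 : IsSig O (k + 1) L'ᶜ := sig_of_delta (h _ (delta_compl hL'))
  have h2 := DC.d2 O k _ n h1 hn
  refine (congrArg (IsSig O (k + 1)) (Set.ext fun x => ?_)).mp h2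
  rw [hXL]
  rfl

theorem dju_sig {O : Oracle} {k : ℕ} {N₁ N₂ : Set (List Bool)} (h1 : IsSig O k N₁)
    (h2 : IsSig O k N₂) : IsSig O k (dju N₁ N₂) := by
  have h3 := DC.sig_ite (c := fun q => decide (q.take 1 = [true])) h2 h1
    (Poly.decide_eq (PPH.poly_take Poly.id (NPC.Poly.const 1)) (NPC.Poly.const _))
    (f := fun q => q.tail) (g := fun q => q.tail) (Poly.tail Poly.id) (Poly.tail Poly.id)
  have h4 := DC.sig_ite (c := fun q => decide (q = []))
    (DC.sig_empty O k) h3
    (Poly.decide_eq Poly.id (NPC.Poly.const _)) (f := fun q => q) (g := fun q => q) Poly.id Poly.id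
  refine (congrArg (IsSig O k) (Set.ext fun q => ?_)).mp h4
  rw [← cha_iff (dju N₁ N₂) q, cha_dju]
  rcases q with _ | ⟨b, q⟩
  · simp [join]
  · cases b <;> simp [join, cha_iff]

/-- `L_k ⊆ L^_(k+1)` -/
theorem low_sub_lowHat (O : Oracle) (k : ℕ) : Low O k ⊆ LowHat O (k + 1) := by
  rintro B ⟨hB, h⟩
  refine ⟨hB, ?_⟩
  rintro X ⟨N, hN, hX⟩
  have h1 : IsSig O k B := h B (IsSig.of_isP (isP_rel O B) k)
  refine ⟨dju B N, dju_sig h1 (h N hN), ?_⟩
  have e : rel O (dju B N) = join O (join (cha B) (cha N)) := by rw [rel_eq, cha_dju]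
  have h2 : Le (rel (rel O B) N) (rel O (dju B N)) := by
    rw [e]
    exact isFP_join (isFP_join (isFP_left _ _) (trans (isFP_left (cha B) (cha N))
      (isFP_right _ _))) (trans (isFP_right (cha B) (cha N)) (isFP_right _ _))
  exact h2.isP hX

/-- `L^_(k+1) ⊆ L_(k+1)` -/
theorem lowHat_sub_low (O : Oracle) (k : ℕ) : LowHat O (k + 1) ⊆ Low O (k + 1) :=
  fun _ ⟨hB, h⟩ => ⟨hB, fun _ hX => sig_low_of_delta_low h hX⟩

/-- The oracle, with the classes of `Pool.Agent.W2helper61.LH.Defs`. -/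
theorem low_collapse : ∃ O : Oracle,
    (∀ k : ℕ, ∃ L, IsSig O (k + 1) L ∧ ¬ IsSig O k L) ∧
    (∀ (k : ℕ) (B : Set (List Bool)), (∀ X, IsSig (rel O B) k X → IsSig O k X) → IsP O B) ∧
    (∀ (n : ℕ) (B : Set (List Bool)), (∀ X, IsDelta (rel O B) n X → IsDelta O n X) → IsP O B) ∧
    (∀ k : ℕ, Low O k = P O) ∧ ∀ n : ℕ, LowHat O n = P O := by
  obtain ⟨O, h1, h2⟩ := main (W2helper95.LC.sub s_SEQ s_TT) W2helper95.LC.kc
    (W2helper95.LC.km W2helper85.LC.gtn)
  have h3 : ∀ (k : ℕ) (B : Set (List Bool)), (∀ X, IsSig (rel O B) k X → IsSig O k X) →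
      IsP O B := fun k B h => h2 k B fun L hL => h L ((le_join_rel O B).isSig hL)
  have h4 : ∀ (n : ℕ) (B : Set (List Bool)),
      (∀ X, IsDelta (rel O B) n X → IsDelta O n X) → IsP O B := by
    intro n B h
    cases n with
    | zero => exact h B (isP_rel O B)
    | succ n => exact h3 (n + 1) B fun X hX => sig_low_of_delta_low h hX
  refine ⟨O, h1, h3, h4, fun k => Set.ext fun B => ⟨fun h => h3 k B h.2, fun h => P_low h k⟩,
    fun n => Set.ext fun B => ⟨fun h => h4 n B h.2, fun h => ⟨(P_low h 0).1, ?_⟩⟩⟩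
  intro X hX
  cases n with
  | zero => exact (le_rel h).isP hX
  | succ n =>
    obtain ⟨N, hN, hX⟩ := hX
    have h5 : Le (rel (rel O B) N) (rel O N) :=
      isFP_join (trans (le_rel h) (isFP_left O _)) (isFP_right O _)
    exact ⟨N, (le_rel h).isSig hN, h5.isP hX⟩

end Pool.Agent.W2helper57.LC
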