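import Pool.Agent.W2helper57.LC.Force
import Pool.Agent.W2helper71.LC.LB
import Pool.Agent.W2helper85.LC.QUANT

/-! The polynomial hierarchy is infinite relative to many oracles of every state. -/

set_option autoImplicit false

namespace Pool.Agent.W2helper57.LC

open Pool.Agent.NPC Pool.Agent.H620R2.Gauge Pool.Agent.H591R3.PHG Pool.Agent.TH678.GC
  Pool.Agent.W2helper58.GU Pool.Agent.H622R2

theorem exists_en : ∃ g : ℕ → Alg × Polynomial ℕ, Function.Surjective g := by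
  have h1 := CC.poly_countable
  have h2 : Countable Alg := Alg.countable
  have h3 : Nonempty (Alg × Polynomial ℕ) := ⟨(⟨fun _ => [], CC.const_polyTime [], 0⟩, 0)⟩
  exact exists_surjective_nat (Alg × Polynomial ℕ)

/-- two oracles agree on short strings -/
def Ag (n : ℕ) (A B : Oracle) : Prop := ∀ q : List Bool, q.length ≤ n → A q = B q

theorem lower_state {Φ : Oracle → Oracle → Oracle} {W : List Bool → Bool} {N : ℕ}
    (hΦ : Good Φ W N) {g f : Oracle} {m k : ℕ} (hrem : Rem k Φ W g f m)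
    (e : Alg × Polynomial ℕ) {G₀ F₀ : Oracle} (h₀ : Cnd g f m G₀ F₀) {m' : ℕ} (hm : m ≤ m') :
    ∃ G : Oracle, Ag m' G G₀ ∧ ∃ x : List Bool, ¬ (x ∈ lang k G ↔ x ∈ SM k e (Φ G F₀)) := by
  obtain ⟨S', n₀, ⟨V, p, ⟨M, hM⟩, hS'⟩, hrem'⟩ := hrem (SM k e) (uSg_SM k e) 2
  obtain ⟨n₁, hn₁⟩ := W2helper71.LC.s_LB k M p
  set n : ℕ := max (max n₀ n₁) m' with hn
  have hnn₀ : n₀ ≤ n := le_trans (le_max_left _ _) (le_max_left _ _)
  have hnn₁ : n₁ ≤ n := le_trans (le_max_right _ _) (le_max_left _ _)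
  have hnm : m' ≤ n := le_max_right _ _
  obtain ⟨A, hA, x, hx, hdis⟩ := hn₁ n hnn₁ G₀
    (fun A => join (base A (off W F₀)) (cut n (Φ A F₀))) (by
      intro q
      rcases q with _ | ⟨a, q⟩
      · exact Or.inl ⟨false, fun _ _ => rfl⟩
      cases a with
      | true =>
        left
        refine ⟨cut n (Φ G₀ F₀) q, fun A hA => ?_⟩
        change cut n (Φ A F₀) q = _
        unfold cut
        by_cases h : q.length < n
        · rw [if_pos h, if_pos h]
          exact hΦ.loc q.length A G₀ F₀ F₀ (fun u hu => hA u (by omega)) (fun _ _ => rfl) q le_rfl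
        · rw [if_neg h, if_neg h]
      | false =>
        rcases q with _ | ⟨c, v⟩
        · exact Or.inl ⟨false, fun _ _ => rfl⟩
        cases c with
        | false => exact Or.inr ⟨v, fun _ _ => rfl⟩
        | true => exact Or.inl ⟨join (Ub Dh) (join (Ub Dh) (off W F₀)) v, fun _ _ => rfl⟩)
  refine ⟨A, fun q hq => hA q (hq.trans hnm), x, ?_⟩
  have hC : Cnd g f m A F₀ :=
    ⟨fun q hq => (hA q (by omega)).trans (h₀.1 q hq), h₀.2⟩
  have h1 := hrem' n hnn₀ A F₀ hC x hx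
  rw [h1, hS']
  have h2 : V (join (base A (off W F₀)) (cut n (Φ A F₀))) =
      acc M (join (base A (off W F₀)) (cut n (Φ A F₀))) := by
    funext y
    unfold acc
    rw [hM]
    rfl
  rw [h2]
  exact hdis

/-- a generic oracle, step by step -/
theorem generic_seq {P : ℕ → Oracle → Prop} (Q : Oracle → Prop) {m₀ : ℕ}
    (h : ∀ (i : ℕ) (G : Oracle) (m : ℕ), m₀ ≤ m → Q G → ∃ G' : Oracle, Q G' ∧ Ag m G' G ∧
      ∃ m' : ℕ, ∀ G'' : Oracle, Ag m' G'' G' → P i G'') {G₀ : Oracle} (hQ : Q G₀) :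
    ∃ G : Oracle, Ag m₀ G G₀ ∧ ∀ i, P i G := by
  choose! nx h1 h2 mx h3 using h
  -- the state: an oracle with the property and a number
  let T : Type := {p : Oracle × ℕ // Q p.1 ∧ m₀ ≤ p.2}
  let step : ℕ → T → T := fun i p =>
    ⟨(nx i p.1.1 p.1.2, max (max p.1.2 (i + 1)) (mx i p.1.1 p.1.2)),
      h1 i p.1.1 p.1.2 p.2.2 p.2.1,
      le_trans p.2.2 (le_trans (le_max_left _ _) (le_max_left _ _))⟩
  let sq : ℕ → T := fun n => Nat.rec ⟨(G₀, m₀), hQ, le_rfl⟩ (fun i p => step i p) n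
  have hs : ∀ i, sq (i + 1) = step i (sq i) := fun i => rfl
  have hm1 : ∀ i, (sq i).1.2 ≤ (sq (i + 1)).1.2 := fun i =>
    le_trans (le_max_left _ _) (le_max_left _ _)
  have hm2 : ∀ i, i ≤ (sq i).1.2 := by
    intro i
    cases i with
    | zero => exact Nat.zero_le _
    | succ i => exact le_trans (le_max_right _ _) (le_max_left _ _)
  have hm3 : ∀ i, mx i (sq i).1.1 (sq i).1.2 ≤ (sq (i + 1)).1.2 := fun i => le_max_right _ _
  have hmono : ∀ i j, i ≤ j → (sq i).1.2 ≤ (sq j).1.2 := by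
    intro i j hij
    induction hij with
    | refl => exact le_rfl
    | step _ ih => exact ih.trans (hm1 _)
  have hag : ∀ i, Ag (sq i).1.2 (sq (i + 1)).1.1 (sq i).1.1 := fun i =>
    h2 i (sq i).1.1 (sq i).1.2 (sq i).2.2 (sq i).2.1
  have hag2 : ∀ i j, i ≤ j → Ag (sq i).1.2 (sq j).1.1 (sq i).1.1 := by
    intro i j hij
    induction hij with
    | refl => exact fun _ _ => rfl
    | step hle ih =>
      intro q hq
      rw [hag _ q (hq.trans (hmono _ _ hle))]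
      exact ih q hq
  set G : Oracle := fun q => (sq q.length).1.1 q with hG
  have hlim : ∀ i, Ag (sq i).1.2 G (sq i).1.1 := by
    intro i q hq
    rw [hG]
    simp only
    rcases le_total i q.length with h | h
    · exact hag2 i _ h q hq
    · exact (hag2 _ i h q (hm2 _)).symm
  refine ⟨G, hlim 0, fun i => ?_⟩
  refine h3 i (sq i).1.1 (sq i).1.2 (sq i).2.2 (sq i).2.1 G ?_
  intro q hq
  exact hlim (i + 1) q (hq.trans (hm3 i))

/-- Some oracle of the state separates the levels from `k` on, for one `k` with `Rem`. -/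
theorem exists_sep (s : St) {k : ℕ} (hrem : Rem k s.Φ s.W s.g s.f s.m) :
    ∃ G : Oracle, Cnd s.g s.f s.m G s.f ∧
      ∀ e : Alg × Polynomial ℕ, ∃ x : List Bool, ¬ (x ∈ lang k G ↔ x ∈ SM k e (s.Φ G s.f)) := by
  obtain ⟨en, hen⟩ := exists_en
  obtain ⟨G, h1, h2⟩ := generic_seq
    (P := fun i G => ∃ x : List Bool, ¬ (x ∈ lang k G ↔ x ∈ SM k (en i) (s.Φ G s.f)))
    (Q := fun G => Cnd s.g s.f s.m G s.f) (m₀ := s.m) (G₀ := s.g) (by
      intro i G m hm hQ
      obtain ⟨G', h3, x, h4⟩ := lower_state s.good hrem (en i) hQ hm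
      refine ⟨G', ⟨fun q hq => (h3 q (by omega)).trans (hQ.1 q hq), hQ.2⟩, h3, ?_⟩
      obtain ⟨ℓ₁, e1⟩ := lang_local k x
      obtain ⟨ℓ₂, e2⟩ := SM_local k (en i) x
      refine ⟨max ℓ₁ ℓ₂, fun G'' hG'' => ⟨x, ?_⟩⟩
      rw [e1 G'' G' fun q hq => hG'' q (hq.trans (le_max_left _ _)),
        e2 (s.Φ G'' s.f) (s.Φ G' s.f) fun q hq => s.good.loc ℓ₂ G'' G' s.f s.f
          (fun u hu => hG'' u (le_trans (by omega) (le_max_right ℓ₁ ℓ₂))) (fun _ _ => rfl) q hq]
      exact h4) ⟨fun _ _ => rfl, fun _ _ => rfl⟩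
  refine ⟨G, ⟨fun q hq => h1 q (by omega), fun _ _ => rfl⟩, fun e => ?_⟩
  obtain ⟨i, rfl⟩ := hen e
  exact h2 i

/-! ### Facts for one oracle -/

theorem sig_pre {A : Oracle} {k : ℕ} {L : Set (List Bool)} (h : IsSig A k L)
    {φ : List Bool → List Bool} (hφ : Poly φ) : IsSig A k {x | φ x ∈ L} := by
  obtain ⟨V, p, hV, hL⟩ := h
  have h1 := W2helper85.LC.gtn A k (fun z => V (unpair z).2) (fun x => p.eval (φ x).length) φ
    (IsFP.precomp hV (Poly.snd poly_unpair)) ((UPoly.length hφ).eval p) hφ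
  refine (congrArg (IsSig A k) ?_).mp h1
  ext x
  simp only [Set.mem_ofPred_eq, unpair_pairBits]
  exact (hL (φ x)).symm

theorem sig_K (hKC : S_KC) {A : Oracle} {k : ℕ} {L : Set (List Bool)} (h : IsSig A k L) :
    ∃ φ : List Bool → List Bool, Poly φ ∧ ∀ x, x ∈ L ↔ φ x ∈ Kk k A := by
  obtain ⟨e, rfl⟩ := exists_SM h
  obtain ⟨φ, h1, h2⟩ := hKC k (SM k e) (uSg_SM k e)
  exact ⟨φ, h1, h2 A⟩

theorem collapse_up {A : Oracle} {k : ℕ} (h : ∀ L, IsSig A (k + 1) L → IsSig A k L)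
    (L : Set (List Bool)) (hL : IsSig A (k + 2) L) : IsSig A (k + 1) L := by
  obtain ⟨L', n, h1, h2, h3⟩ := W2helper85.LC.peeln A (k + 1) L hL
  have h4 := W2helper85.LC.mrn A k L' n (h L' h1) h2
  refine (congrArg (IsSig A (k + 1)) ?_).mp h4
  ext x
  exact (h3 x).symm

theorem collapse_ups {A : Oracle} {k : ℕ} (h : ∀ L, IsSig A (k + 1) L → IsSig A k L)
    {k' : ℕ} (hk : k ≤ k') : ∀ L, IsSig A (k' + 1) L → IsSig A k' L := by
  induction hk with
  | refl => exact h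
  | step _ ih => exact collapse_up ih

/-! ### The second requirement -/

theorem req_B (hKC : S_KC) (s : St) (k : ℕ) (e : Alg × Polynomial ℕ) : ∃ s' : St, s'.C ⊆ s.C ∧
    ∀ O ∈ s'.C, ∃ z, ¬ (z ∈ Kk (k + 1) O ↔ z ∈ SM k e O) := by
  by_cases h : ∀ O ∈ s.C, ∀ z : List Bool, (z ∈ Kk (k + 1) O ↔ z ∈ SM k e O)
  · exfalso
    obtain ⟨K, hK⟩ := s.rem
    obtain ⟨G, h1, h2⟩ := exists_sep s (hK (max k K) (le_max_right _ _))
    set O := s.Φ G s.f with hO
    have hOC : O ∈ s.C := ⟨G, s.f, h1, rfl⟩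
    have h3 : ∀ L, IsSig O (k + 1) L → IsSig O k L := by
      intro L hL
      obtain ⟨φ, h4, h5⟩ := sig_K hKC hL
      have h6 := sig_pre ((uSg_SM k e).isSig O) h4
      refine (congrArg (IsSig O k) ?_).mp h6
      ext x
      rw [Set.mem_ofPred_eq, ← h O hOC, h5]
    obtain ⟨F', hF'⟩ := s.good.shape G s.f
    have h4 : IsSig O (max k K + 1) (lang (max k K) G) := by
      rw [hO, hF']
      exact W2helper17.GU.s_SIG G _ _
    obtain ⟨e', he'⟩ := exists_SM (collapse_ups h3 (le_max_left k K) _ h4)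
    obtain ⟨x, hx⟩ := h2 e'
    apply hx
    rw [he']
  · push Not at h
    obtain ⟨O, hO, z, hz⟩ := h
    have hz' : ¬ (z ∈ Kk (k + 1) O ↔ z ∈ SM k e O) := by tauto
    obtain ⟨ℓ₁, e1⟩ := Kk_local (k + 1) z
    obtain ⟨ℓ₂, e2⟩ := SM_local k e z
    obtain ⟨s', h2, h3⟩ := s.force (P := fun O => ¬ (z ∈ Kk (k + 1) O ↔ z ∈ SM k e O))
      (fun O hO => ⟨max ℓ₁ ℓ₂, fun O' hO' => by
        rw [e1 O' O fun q hq => hO' q (hq.trans (le_max_left _ _)),
          e2 O' O fun q hq => hO' q (hq.trans (le_max_right _ _))]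
        exact hO⟩) hO hz'
    exact ⟨s', h2, fun O hO => ⟨z, h3 O hO⟩⟩

end Pool.Agent.W2helper57.LC
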