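import Pool.Agent.W2helper57.LC.Down
import Pool.Agent.H622R2.Exp.YAux

/-! Removal of the long codes. -/

set_option autoImplicit false

namespace Pool.Agent.W2helper57.LC

open Pool.Agent.NPC Pool.Agent.H620R2.Gauge Pool.Agent.H591R3.PHG Pool.Agent.TH678.GC
  Pool.Agent.W2helper58.GU Pool.Agent.H622R2

theorem pair_len {n d : ℕ} (hn : 3 ≤ n) {x : List Bool} (hx : x.length ≤ n ^ d) :
    (pairBits x (List.replicate n true)).length ≤ n ^ (d + 2) := by
  rw [length_pairBits, List.length_replicate]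
  have h1 : 1 ≤ n ^ d := Nat.one_le_pow _ _ (by omega)
  have h2 : n ^ (d + 2) = n ^ d * n ^ 2 := pow_add _ _ _
  rw [h2]
  have h3 : n ^ d * (3 * n) ≤ n ^ d * n ^ 2 := Nat.mul_le_mul_left _ (by nlinarith)
  have h4 : n ^ d * (3 * n) = n ^ d * (2 * n) + n ^ d * n := by ring
  have h5 : n ≤ n ^ d * n := Nat.le_mul_of_pos_left n h1
  have h6 : n ^ d * 6 ≤ n ^ d * (2 * n) := Nat.mul_le_mul_left _ (by omega)
  omega

theorem poly_lt_pow (q : Polynomial ℕ) (e : ℕ) : ∃ r : ℕ, ∀ n ≥ 2, q.eval (n ^ e) < n ^ 2 ^ r := by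
  obtain ⟨D, _, hD⟩ := Exp.YAux.poly_bound q
  refine ⟨(e + 2) * D + 1, fun n hn => ?_⟩
  have h1 : 1 ≤ n ^ e := Nat.one_le_pow _ _ (by omega)
  have h2 : n ^ e + 2 ≤ n ^ (e + 2) := by
    rw [pow_add]
    have : 2 ^ 2 ≤ n ^ 2 := Nat.pow_le_pow_left hn 2
    nlinarith
  calc q.eval (n ^ e) ≤ (n ^ e + 2) ^ D := hD _
    _ ≤ (n ^ (e + 2)) ^ D := Nat.pow_le_pow_left h2 D
    _ = n ^ ((e + 2) * D) := (pow_mul _ _ _).symm
    _ < n ^ ((e + 2) * D + 1) := Nat.pow_lt_pow_right (by omega) (by omega)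
    _ ≤ n ^ 2 ^ ((e + 2) * D + 1) := Nat.pow_le_pow_right (by omega) Nat.lt_two_pow_self.le

theorem poly_dup : Poly (fun y : List Bool => pairBits y (unpair y).2) :=
  poly_pairBits Poly.id (Poly.snd poly_unpair)

section

variable {Φ : Oracle → Oracle → Oracle} {W : List Bool → Bool} {N : ℕ} (hΦ : Good Φ W N)
  {A : Oracle → Set (List Bool)} {b : Polynomial ℕ}
  (hb : ∀ (B B' : Oracle) (x : List Bool),
    (∀ q : List Bool, q.length ≤ b.eval x.length → B q = B' q) → (x ∈ A B ↔ x ∈ A B'))
  (m : ℕ) (hSUB : S_SUB) (hGTU : S_GTU) {g f : Oracle} {k : ℕ}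
  (hlow : LowU k Φ g f m A) (hrem : Rem k Φ W g f m)

include hSUB hGTU hlow hrem in
theorem down {S : Oracle → Set (List Bool)} (hS : USg k S) (d c : ℕ) (hc : 1 ≤ c) :
    ∃ (S' : Oracle → Set (List Bool)) (n₀ : ℕ), USg k S' ∧ ∀ n ≥ n₀, ∀ G F : Oracle,
      Cnd g f m G F → ∀ x : List Bool, x.length ≤ n ^ d →
      (x ∈ S (join (base G (off W (Ft hΦ hb m (n ^ (2 * c)) G F))) (cut n (Nx hΦ hb m G F))) ↔
        pairBits x (List.replicate n true) ∈
          S' (join (base G (off W (Ft hΦ hb m (n ^ c) G F))) (cut n (Nx hΦ hb m G F)))) := by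
  have hS₁ := USg.subst hSUB hGTU hS (poly_dfl hΦ.polyW N m b (2 * c)) (poly_dqu N m)
    (ar := fun z => (unpair z).1) (Poly.fst poly_unpair)
  obtain ⟨S₂, hS₂, h₂⟩ := hlow _ hS₁
  obtain ⟨S₃, n₁, hS₃, h₃⟩ := hrem S₂ hS₂ (d + 2)
  refine ⟨_, max n₁ 3, USg.pre hSUB hGTU hS₃ poly_dup, fun n hn G F hGF x hx => ?_⟩
  have hn1 : n₁ ≤ n := le_trans (le_max_left _ _) hn
  have hn3 : 3 ≤ n := le_trans (le_max_right _ _) hn
  have ht : (n ^ c) ^ 2 = n ^ (2 * c) := by rw [← pow_mul, mul_comm]
  have hnt : n ≤ n ^ c := Nat.le_self_pow (by omega) n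
  have e1 := h₂ G (Ft hΦ hb m (n ^ c) G F) (cnd_ins m hGF)
    (pairBits x (List.replicate n true))
  have e2 := h₃ n hn1 G (Ft hΦ hb m (n ^ c) G F) (cnd_ins m hGF)
    (pairBits x (List.replicate n true)) (pair_len hn3 hx)
  have e3 : cut n (Φ G (Ft hΦ hb m (n ^ c) G F)) = cut n (Nx hΦ hb m G F) := by
    funext q
    unfold cut
    by_cases h : q.length < n
    · rw [if_pos h, if_pos h]
      exact (Nx_agree hΦ hb m (a := q.length) (by omega) G F q le_rfl).symm
    · rw [if_neg h, if_neg h]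
  rw [e3] at e2
  simp only [Set.mem_ofPred_eq, unpair_pairBits] at e1 ⊢
  rw [← e2, ← e1]
  have e4 : (fun q => dfl W N m b (2 * c) (pairBits (pairBits x (List.replicate n true)) q) &&
      join (chi (A (Φ G (Ft hΦ hb m (n ^ c) G F)))) (Φ G (Ft hΦ hb m (n ^ c) G F))
        (dqu N m (pairBits (pairBits x (List.replicate n true)) q))) =
      join (base G (off W (Ft hΦ hb m (n ^ (2 * c)) G F))) (cut n (Nx hΦ hb m G F)) :=
    funext fun q => down_eq hΦ hb m G F ht hnt x q
  rw [e4]

include hSUB hGTU hlow hrem in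
theorem downs (r : ℕ) : ∀ {S : Oracle → Set (List Bool)}, USg k S → ∀ d : ℕ,
    ∃ (S' : Oracle → Set (List Bool)) (n₀ : ℕ), USg k S' ∧ ∀ n ≥ n₀, ∀ G F : Oracle,
      Cnd g f m G F → ∀ x : List Bool, x.length ≤ n ^ d →
      (x ∈ S (join (base G (off W (Ft hΦ hb m (n ^ 2 ^ r) G F))) (cut n (Nx hΦ hb m G F))) ↔
        pairBits x (List.replicate n true) ∈
          S' (join (base G (off W (Ft hΦ hb m n G F))) (cut n (Nx hΦ hb m G F)))) := by
  induction r with
  | zero =>
    intro S hS d
    refine ⟨_, 0, USg.pre hSUB hGTU hS (ar := fun z => (unpair z).1) (Poly.fst poly_unpair),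
      fun n _ G F _ x _ => ?_⟩
    simp only [Set.mem_ofPred_eq, unpair_pairBits, pow_zero, pow_one]
  | succ r ih =>
    intro S hS d
    obtain ⟨S₁, n₁, hS₁, h₁⟩ := down hΦ hb m hSUB hGTU hlow hrem hS d (2 ^ r)
      Nat.one_le_two_pow
    obtain ⟨S₂, n₂, hS₂, h₂⟩ := ih hS₁ (d + 2)
    refine ⟨_, max (max n₁ n₂) 3, USg.pre hSUB hGTU hS₂ poly_dup, fun n hn G F hGF x hx => ?_⟩
    have hn1 : n₁ ≤ n := le_trans (le_trans (le_max_left _ _) (le_max_left _ _)) hn
    have hn2 : n₂ ≤ n := le_trans (le_trans (le_max_right _ _) (le_max_left _ _)) hn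
    have hn3 : 3 ≤ n := le_trans (le_max_right _ _) hn
    have e1 := h₁ n hn1 G F hGF x hx
    have e2 := h₂ n hn2 G F hGF _ (pair_len hn3 hx)
    rw [pow_succ, mul_comm (2 ^ r) 2]
    simp only [Set.mem_ofPred_eq, unpair_pairBits]
    rw [e1, e2]

/-- what is asked at the bottom -/
def bqu (W : List Bool → Bool) (N m : ℕ) (zz : List Bool) : List Bool :=
  if (unpair zz).2.head? = some false ∧ isPos (unpair zz).2.tail = true ∧
      W ((unpair zz).2.tail.drop 3) = false ∧ isNew N m ((unpair zz).2.tail.drop 3) = true then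
    true :: (unpair zz).2.tail
  else (unpair zz).2

theorem poly_bqu {W : List Bool → Bool} (hW : Poly W) (N m : ℕ) : Poly (bqu W N m) := by
  have hq : Poly (fun zz : List Bool => (unpair zz).2) := Poly.snd poly_unpair
  have ht : Poly (fun zz : List Bool => (unpair zz).2.tail) := Poly.tail hq
  have hv : Poly (fun zz : List Bool => (unpair zz).2.tail.drop 3) :=
    PPH.poly_drop ht (NPC.Poly.const 3)
  unfold bqu
  exact Poly.ite (Poly.decide_and (Poly.decide_eq (Poly.head? hq) (NPC.Poly.const _))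
    (Poly.decide_and (Poly.decide_eq (poly_isPos.comp ht) (NPC.Poly.const _))
      (Poly.decide_and (Poly.decide_eq (hW.comp hv) (NPC.Poly.const _))
        (Poly.decide_eq ((poly_isNew N m).comp hv) (NPC.Poly.const _)))))
    (Poly.cons (NPC.Poly.const true) ht) hq

theorem bottom_eq (G F : Oracle) (n : ℕ) (z q : List Bool) :
    (true && join (base G (off (Wx W N m) F)) (cut n (Nx hΦ hb m G F))
      (bqu W N m (pairBits z q))) =
      join (base G (off W (Ft hΦ hb m n G F))) (cut n (Nx hΦ hb m G F)) q := by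
  have e2 : bqu W N m (pairBits z q) =
      (if q.head? = some false ∧ isPos q.tail = true ∧ W (q.tail.drop 3) = false ∧
        isNew N m (q.tail.drop 3) = true then true :: q.tail else q) := by
    unfold bqu
    simp only [unpair_pairBits]
  rw [e2, Bool.true_and]
  rcases q with _ | ⟨a, q⟩
  · rfl
  cases a with
  | true =>
    simp only [List.head?_cons, Option.some.injEq, Bool.true_eq_false, false_and, if_false]
    rfl
  | false =>
    simp only [List.head?_cons, List.tail_cons, true_and]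
    cases hp : isPos q with
    | false =>
      simp only [Bool.false_eq_true, if_false, false_and]
      change base G _ q = base G _ q
      exact base_not hp
    | true =>
      obtain ⟨v, rfl⟩ : ∃ v, q = pos v := ⟨_, eq_pos hp⟩
      simp only [drop_pos, true_and]
      change _ = off W (Ft hΦ hb m n G F) v
      cases hw : W v with
      | true =>
        simp only [Bool.true_eq_false, if_false, false_and]
        change off (Wx W N m) F v = _
        unfold off Wx
        simp [hw]
      | false =>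
        simp only [true_and]
        cases hn : isNew N m v with
        | false =>
          simp only [Bool.false_eq_true, if_false]
          change off (Wx W N m) F v = _
          unfold off Wx Ft ins
          simp [hw, hn]
        | true =>
          simp only [if_true]
          change cut n (Nx hΦ hb m G F) (pos v) = _
          have h0 : off W (Ft hΦ hb m n G F) v = Ft hΦ hb m n G F v := by
            unfold off
            rw [if_neg (by simp [hw])]
          rw [h0]
          unfold cut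
          rw [length_pos]
          have h1 : Nx hΦ hb m G F (pos v) = DD hΦ hb m G F v := by
            unfold Nx
            rw [hΦ.free _ _ _ hw]
            unfold ins
            rw [if_pos hn]
          rw [h1]
          unfold Ft ins tr3
          rw [if_pos hn]

include hSUB hGTU hlow hrem in
theorem rem_Nx : Rem k (Nx hΦ hb m) (Wx W N m) g f m := by
  intro S hS d
  obtain ⟨S₁, n₁, hS₁, h₁⟩ := hrem S hS d
  obtain ⟨b₁, hb₁⟩ := hS₁.local
  obtain ⟨r, hr⟩ := poly_lt_pow b₁ (d + 2)
  obtain ⟨S₂, n₂, hS₂, h₂⟩ := downs hΦ hb m hSUB hGTU hlow hrem r hS₁ (d + 2)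
  have hS₃ := USg.subst hSUB hGTU hS₂ (fl := fun _ => true) (NPC.Poly.const true)
    (poly_bqu hΦ.polyW N m) poly_dup
  refine ⟨_, max (max n₁ n₂) 3, hS₃, fun n hn G F hGF x hx => ?_⟩
  have hn1 : n₁ ≤ n := le_trans (le_trans (le_max_left _ _) (le_max_left _ _)) hn
  have hn2 : n₂ ≤ n := le_trans (le_trans (le_max_right _ _) (le_max_left _ _)) hn
  have hn3 : 3 ≤ n := le_trans (le_max_right _ _) hn
  have e1 := h₁ n hn1 G (ins N m F (DD hΦ hb m G F)) (cnd_ins m hGF) x hx
  have e2 := h₂ n hn2 G F hGF _ (pair_len hn3 hx)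
  have e3 : pairBits x (List.replicate n true) ∈
      S₁ (join (base G (off W (ins N m F (DD hΦ hb m G F)))) (cut n (Nx hΦ hb m G F))) ↔
      pairBits x (List.replicate n true) ∈
        S₁ (join (base G (off W (Ft hΦ hb m (n ^ 2 ^ r) G F))) (cut n (Nx hΦ hb m G F))) := by
    apply hb₁
    intro q hq
    have h3 : q.length < n ^ 2 ^ r :=
      lt_of_le_of_lt (hq.trans (eval_mono b₁ (pair_len hn3 hx))) (hr n (by omega))
    rcases q with _ | ⟨a, q⟩
    · rfl
    cases a with
    | true => rfl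
    | false =>
      cases hp : isPos q with
      | false => exact base_not hp
      | true =>
        obtain ⟨v, rfl⟩ : ∃ v, q = pos v := ⟨_, eq_pos hp⟩
        change off W _ v = off W _ v
        unfold off
        rw [List.length_cons, length_pos] at h3
        rw [Ft_agree hΦ hb m (t := n ^ 2 ^ r) (a := v.length + 3) (by omega) G F v le_rfl]
  have e4 : ∀ z : List Bool, (fun q => true && join (base G (off (Wx W N m) F))
      (cut n (Nx hΦ hb m G F)) (bqu W N m (pairBits z q))) =
      join (base G (off W (Ft hΦ hb m n G F))) (cut n (Nx hΦ hb m G F)) :=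
    fun z => funext fun q => bottom_eq hΦ hb m G F n z q
  simp only [Set.mem_ofPred_eq, unpair_pairBits]
  rw [e4, ← e2, ← e3]
  exact e1

end

end Pool.Agent.W2helper57.LC
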