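import Pool.Agent.W2helper17.GU.PH
import Pool.Agent.W2helper58.GU.Fam
import Pool.Agent.H529R3.Lev.Precomp
import Pool.Agent.H620R2.GaugeR.R1

/-!
# Low sets relative to an oracle: definitions and statements of the pieces
-/

set_option autoImplicit false

namespace Pool.Agent.W2helper57.LC

open Pool.Agent.NPC Pool.Agent.H620R2.Gauge Pool.Agent.H591R3.PHG Pool.Agent.TH678.GC
  Pool.Agent.W2helper58.GU

/-- The functional `F` is computable in polynomial time by one algorithm for all oracles. -/
def UFP (F : Oracle → List Bool → List Bool) : Prop := ∃ M : Alg, ∀ A x, M.out A x = some (F A x)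

/-- The functional `S` is in `Σ_k`, by one algorithm for all oracles. -/
def USg (k : ℕ) (S : Oracle → Set (List Bool)) : Prop :=
  ∃ (V : Oracle → List Bool → List Bool) (p : Polynomial ℕ), UFP V ∧
    ∀ A x, x ∈ S A ↔ Quant (p.eval x.length) (V A) k true x

/-- A language with all `Σ_k` languages reducible to it: the input `⟨h, x, μ, τ⟩` is in it if the
algorithm with the description `h` accepts `x` with `k` alternating quantifiers over strings of
length at most `|μ|`, in `|τ|` steps. -/
noncomputable def Kk (k : ℕ) (X : Oracle) : Set (List Bool) :=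
  {z | Quant (unpair (unpair (unpair z).2).2).1.length
    (fun y => if ev (unpair z).1 y (unpair (unpair (unpair z).2).2).2.length X = [true, true] then
      [true] else []) k true (unpair (unpair z).2).1}

/-! ### Pieces about uniform algorithms -/

/-- Piece: one algorithm after the other (compare `IsFP.seq`). -/
def S_SEQ : Prop := ∀ (F G : Oracle → List Bool → List Bool)
  (φ : List Bool × List Bool → List Bool) (ψ : List Bool × List Bool × List Bool → List Bool),
  UFP F → UFP G → Poly φ → Poly ψ → UFP (fun A x => ψ (x, F A x, G A (φ (x, F A x))))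

/-- Piece: nonadaptive questions (compare `IsFP.tt`). -/
def S_TT : Prop := ∀ (Q : List Bool → List (List Bool)) (H : List Bool × List Bool → List Bool),
  Poly Q → Poly H → UFP (fun A x => H (x, (Q x).map A))

/-- Piece: a loop (compare `IsFP.loop`). -/
def S_LOOP : Prop := ∀ (S : Oracle → List Bool → List Bool) (g : List Bool → List Bool)
  (T b : Polynomial ℕ), UFP S → Poly g →
  (∀ A x, ∀ i ≤ T.eval x.length, ((S A)^[i] (g x)).length ≤ b.eval x.length) →
  UFP (fun A x => (S A)^[T.eval x.length] (g x))

/-- Piece: every algorithm which stops with the empty output when the time is over. -/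
def S_ACC : Prop := ∀ M : Alg, UFP (acc M)

/-- Piece: an oracle is replaced by a uniformly computable one; the input is `⟨parameter, input⟩`. -/
def S_SUB : Prop := ∀ (F Q : Oracle → List Bool → List Bool), UFP F → UFP Q →
  UFP (fun A z => F (fun q => decide (Q A (pairBits (unpair z).1 q) = [true])) (unpair z).2)

/-- Piece: only short questions matter. -/
def S_LOC : Prop := ∀ F : Oracle → List Bool → List Bool, UFP F → ∃ b : Polynomial ℕ,
  ∀ (A A' : Oracle) (x : List Bool), (∀ q : List Bool, q.length ≤ b.eval x.length → A q = A' q) →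
    F A x = F A' x

/-! ### Pieces about quantifiers -/

/-- Piece: a general form of `Σ_k`, uniformly. -/
def S_GTU : Prop := ∀ (k : ℕ) (V : Oracle → List Bool → List Bool) (n : List Bool → ℕ)
  (g : List Bool → List Bool), UFP V → UPoly n → Poly g →
  USg k (fun A => {x | Quant (n x) (fun y => V A (pairBits x y)) k true (g x)})

/-- Piece: a general form of `Σ_k`, for one oracle. -/
def S_GTN : Prop := ∀ (A : Oracle) (k : ℕ) (V : List Bool → List Bool) (n : List Bool → ℕ)
  (g : List Bool → List Bool), IsFP A V → UPoly n → Poly g →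
  IsSig A k {x | Quant (n x) (fun y => V (pairBits x y)) k true (g x)}

/-- Piece: one more quantifier, uniformly. -/
def S_MRU : Prop := ∀ (k : ℕ) (S : Oracle → Set (List Bool)) (n : List Bool → ℕ), USg k S →
  UPoly n → USg (k + 1) (fun A => {x | ∃ w : List Bool, w.length ≤ n x ∧ pairBits w x ∉ S A})

/-- Piece: one more quantifier, for one oracle. -/
def S_MRN : Prop := ∀ (A : Oracle) (k : ℕ) (L : Set (List Bool)) (n : List Bool → ℕ),
  IsSig A k L → UPoly n →
  IsSig A (k + 1) {x | ∃ w : List Bool, w.length ≤ n x ∧ pairBits w x ∉ L}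

/-- Piece: the outermost quantifier, uniformly. -/
def S_PEELU : Prop := ∀ (k : ℕ) (S : Oracle → Set (List Bool)), USg (k + 1) S →
  ∃ (S' : Oracle → Set (List Bool)) (n : List Bool → ℕ), USg k S' ∧ UPoly n ∧
    ∀ A x, x ∈ S A ↔ ∃ w : List Bool, w.length ≤ n x ∧ pairBits w x ∉ S' A

/-- Piece: the outermost quantifier, for one oracle. -/
def S_PEELN : Prop := ∀ (A : Oracle) (k : ℕ) (L : Set (List Bool)), IsSig A (k + 1) L →
  ∃ (L' : Set (List Bool)) (n : List Bool → ℕ), IsSig A k L' ∧ UPoly n ∧
    ∀ x, x ∈ L ↔ ∃ w : List Bool, w.length ≤ n x ∧ pairBits w x ∉ L'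

/-! ### Pieces about the complete languages -/

/-- Piece: completeness, uniformly. -/
def S_KC : Prop := ∀ (k : ℕ) (S : Oracle → Set (List Bool)), USg k S →
  ∃ f : List Bool → List Bool, Poly f ∧ ∀ A x, x ∈ S A ↔ f x ∈ Kk k A

/-- Piece: membership, if the oracle tells the actions of all algorithms. -/
def S_KM : Prop := ∀ (X : Oracle) (k : ℕ),
  (∀ s, X (true :: true :: false :: s) = Ub Dh s) → IsSig X k (Kk k X)

/-! ### The lower bound -/

/-- Piece: the lower bound of `W2helper17.GU.s_PH` for all large `n`, with an input of length at most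
`n ^ 2`, all questions of length at least `n` open, and an oracle `Ψ A` every bit of which is
constant or a bit of `A`. -/
def S_LB : Prop := ∀ (k : ℕ) (M : Alg) (p : Polynomial ℕ), ∃ n₀ : ℕ, ∀ n ≥ n₀,
  ∀ (B₀ : Oracle) (Ψ : Oracle → Oracle),
  (∀ q : List Bool, (∃ b : Bool, ∀ A : Oracle, (∀ u : List Bool, u.length ≤ n → A u = B₀ u) →
      Ψ A q = b) ∨
    ∃ v : List Bool, ∀ A : Oracle, (∀ u : List Bool, u.length ≤ n → A u = B₀ u) → Ψ A q = A v) →
  ∃ A : Oracle, (∀ u : List Bool, u.length ≤ n → A u = B₀ u) ∧
    ∃ x : List Bool, x.length ≤ n ^ 2 ∧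
      ¬ (x ∈ lang k A ↔ Quant (p.eval (pairBits x (List.replicate n true)).length)
        (acc M (Ψ A)) k true (pairBits x (List.replicate n true)))

end Pool.Agent.W2helper57.LC
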