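import Pool.Agent.W2helper57.LC.Sys

/-!
# Low sets relative to an oracle: more pieces (for the `Δ` levels)
-/

set_option autoImplicit false

namespace Pool.Agent.W2helper57.LC

open Pool.Agent.NPC Pool.Agent.H620R2.Gauge Pool.Agent.H591R3.PHG Pool.Agent.TH678.GC
  Pool.Agent.W2helper58.GU

/-- Piece: two existential quantifiers can be merged. -/
def S_D2 : Prop := ∀ (A : Oracle) (k : ℕ) (L : Set (List Bool)) (n : List Bool → ℕ),
  IsSig A (k + 1) L → UPoly n →
  IsSig A (k + 1) {x | ∃ w : List Bool, w.length ≤ n x ∧ pairBits w x ∈ L}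

/-- Piece: `P(Σ_k) ⊆ Σ_(k+1)`. -/
def S_D1 : Prop := ∀ (A : Oracle) (k : ℕ) (S L : Set (List Bool)),
  IsSig A k S → IsP (chi S) L → IsSig A (k + 1) L

end Pool.Agent.W2helper57.LC
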