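import Pool.Agent.W2helper57.LC.Ufp
import Pool.Agent.W2helper57.PPH.TakeDrop
import Pool.Agent.W2helper58.NX.Base

/-! Oracles with a column of codes of a low set. -/

set_option autoImplicit false

namespace Pool.Agent.W2helper57.LC

open Pool.Agent.NPC Pool.Agent.H620R2.Gauge Pool.Agent.H591R3.PHG Pool.Agent.TH678.GC
  Pool.Agent.W2helper58.GU Pool.Agent.H622R2

/-- the oracle: `G`, the universal table twice, the free column -/
noncomputable def base (G F : Oracle) : Oracle := join G (join (Ub Dh) (join (Ub Dh) F))

/-- the position of a string of the free column -/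
def pos (q : List Bool) : List Bool := true :: true :: true :: q

/-- forget the used part -/
def off (W : List Bool → Bool) (F : Oracle) : Oracle := fun q => if W q = true then false else F q

/-- forget the long strings -/
def cut (n : ℕ) (O : Oracle) : Oracle := fun q => if q.length < n then O q else false

open Classical in
/-- the oracle of a language -/
noncomputable def chi (L : Set (List Bool)) : Oracle := fun q => decide (q ∈ L)

/-- the strings of the column `N` in the positions which are used -/
def isNew (N m : ℕ) (q : List Bool) : Bool :=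
  decide (q.take (N + 1) = List.replicate N true ++ [false]) && decide (m < q.length + 3)

/-- insert the column `N` -/
def ins (N m : ℕ) (F E : Oracle) : Oracle := fun q => if isNew N m q = true then E q else F q

/-- forget the long strings of the column -/
def tr3 (t : ℕ) (D : Oracle) : Oracle := fun q => if q.length + 3 < t then D q else false

/-- the finite condition -/
def Cnd (g f : Oracle) (m : ℕ) (G F : Oracle) : Prop :=
  (∀ q : List Bool, q.length + 1 ≤ m → G q = g q) ∧ ∀ q : List Bool, q.length + 3 ≤ m → F q = f q

/-- the input which is coded by `q` in the column `N` -/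
def arg (N : ℕ) (q : List Bool) : List Bool := (unpair (q.drop (N + 1))).1

/-- the code is long enough -/
def ok (b : Polynomial ℕ) (N : ℕ) (q : List Bool) : Bool :=
  decide ((b.eval (arg N q).length + 4) ^ 2 ≤ (unpair (q.drop (N + 1))).2.length)

theorem ok_len {b : Polynomial ℕ} {N : ℕ} {q : List Bool} (h : ok b N q = true) :
    (b.eval (arg N q).length + 4) ^ 2 ≤ q.length := by
  unfold ok at h
  rw [decide_eq_true_eq] at h
  refine h.trans ((W2helper58.NX.length_unpair_le _).2.trans ?_)
  rw [List.length_drop]
  omega

theorem ok_lt {b : Polynomial ℕ} {N : ℕ} {q : List Bool} (h : ok b N q = true) :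
    b.eval (arg N q).length + 4 ≤ q.length := by
  have := ok_len h
  nlinarith

/-- Removal of the long codes: `Σ_k` relative to `Φ G F` is `Σ_k` relative to `G`, the free part of
`F` and the short part of the oracle. -/
def Rem (k : ℕ) (Φ : Oracle → Oracle → Oracle) (W : List Bool → Bool) (g f : Oracle) (m : ℕ) :
    Prop :=
  ∀ S : Oracle → Set (List Bool), USg k S → ∀ d : ℕ, ∃ (S' : Oracle → Set (List Bool)) (n₀ : ℕ),
    USg k S' ∧ ∀ n ≥ n₀, ∀ G F : Oracle, Cnd g f m G F → ∀ x : List Bool, x.length ≤ n ^ d →
      (x ∈ S (Φ G F) ↔ pairBits x (List.replicate n true) ∈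
        S' (join (base G (off W F)) (cut n (Φ G F))))

/-- The set `A` is low for `Σ_k`, uniformly. -/
def LowU (k : ℕ) (Φ : Oracle → Oracle → Oracle) (g f : Oracle) (m : ℕ)
    (A : Oracle → Set (List Bool)) : Prop :=
  ∀ S : Oracle → Set (List Bool), USg k S → ∃ S' : Oracle → Set (List Bool), USg k S' ∧
    ∀ G F : Oracle, Cnd g f m G F → ∀ x : List Bool,
      (x ∈ S (join (chi (A (Φ G F))) (Φ G F)) ↔ x ∈ S' (Φ G F))

/-- The properties of the functional. -/
structure Good (Φ : Oracle → Oracle → Oracle) (W : List Bool → Bool) (N : ℕ) : Prop where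
  polyW : Poly W
  fresh : ∀ s ≥ N, ∀ v, W (List.replicate s true ++ false :: v) = false
  shape : ∀ G F, ∃ F', Φ G F = base G F'
  free : ∀ G F q, W q = false → Φ G F (pos q) = F q
  loc : ∀ (n : ℕ) (G G' F F' : Oracle), (∀ q : List Bool, q.length + 1 ≤ n → G q = G' q) →
    (∀ q : List Bool, q.length + 3 ≤ n → F q = F' q) →
    ∀ q : List Bool, q.length ≤ n → Φ G F q = Φ G' F' q

/-! ### The fixed point -/

theorem exists_fix (v : Oracle → Oracle) (hv : ∀ (D D' : Oracle) (q : List Bool),
    (∀ q' : List Bool, q'.length < q.length → D q' = D' q') → v D q = v D' q) :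
    ∃ D : Oracle, ∀ q, D q = v D q := by
  have h1 : ∀ (a c : ℕ) (q : List Bool), q.length < a → q.length < c →
      (v^[a] (fun _ => false)) q = (v^[c] (fun _ => false)) q := by
    intro a
    induction a with
    | zero => intro c q h; omega
    | succ a ih =>
      intro c q ha hc
      obtain ⟨c, rfl⟩ : ∃ c', c = c' + 1 := ⟨c - 1, by omega⟩
      rw [Function.iterate_succ_apply', Function.iterate_succ_apply']
      apply hv
      intro q' hq'
      exact ih c q' (by omega) (by omega)
  refine ⟨fun q => (v^[q.length + 1] (fun _ => false)) q, fun q => ?_⟩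
  change (v^[q.length + 1] (fun _ => false)) q = _
  rw [Function.iterate_succ_apply']
  apply hv
  intro q' hq'
  exact h1 _ _ _ (by omega) (by omega)

theorem fix_congr {v v' : Oracle → Oracle} {D D' : Oracle} (hD : ∀ q, D q = v D q)
    (hD' : ∀ q, D' q = v' D' q) {a : ℕ} (h : ∀ q : List Bool, q.length < a →
      (∀ q' : List Bool, q'.length < q.length → D q' = D' q') → v D q = v' D' q) :
    ∀ q : List Bool, q.length < a → D q = D' q := by
  intro q
  induction hn : q.length using Nat.strong_induction_on generalizing q with
  | _ n ih =>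
    subst hn
    intro ha
    rw [hD, hD']
    apply h q ha
    intro q' hq'
    exact ih q'.length hq' q' rfl (by omega)

section

variable {Φ : Oracle → Oracle → Oracle} {W : List Bool → Bool} {N : ℕ} (hΦ : Good Φ W N)
  {A : Oracle → Set (List Bool)} {b : Polynomial ℕ}
  (hb : ∀ (B B' : Oracle) (x : List Bool),
    (∀ q : List Bool, q.length ≤ b.eval x.length → B q = B' q) → (x ∈ A B ↔ x ∈ A B'))
  (m : ℕ)

open Classical in
/-- the equation for the column -/
noncomputable def vl (Φ : Oracle → Oracle → Oracle) (A : Oracle → Set (List Bool))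
    (b : Polynomial ℕ) (N m : ℕ) (G F D : Oracle) : Oracle := fun q =>
  (isNew N m q && ok b N q) && decide (arg N q ∈ A (Φ G (ins N m F D)))

include hΦ hb in
theorem vl_local {G G' F F' D D' : Oracle} {q : List Bool}
    (hG : ∀ q' : List Bool, q'.length < q.length → G q' = G' q')
    (hF : ∀ q' : List Bool, q'.length < q.length → F q' = F' q')
    (hD : ∀ q' : List Bool, q'.length < q.length → D q' = D' q') :
    vl Φ A b N m G F D q = vl Φ A b N m G' F' D' q := by
  unfold vl
  cases h1 : ok b N q with
  | false => simp
  | true =>
    have h2 := ok_lt h1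
    congr 1
    rw [decide_eq_decide]
    apply hb
    apply hΦ.loc (b.eval (arg N q).length)
    · intro q' hq'
      exact hG q' (by omega)
    · intro q' hq'
      unfold ins
      rw [hF q' (by omega), hD q' (by omega)]

include hΦ hb in
theorem exists_D (G F : Oracle) : ∃ D : Oracle, ∀ q, D q = vl Φ A b N m G F D q :=
  exists_fix _ fun D D' q h => vl_local hΦ hb m (fun _ _ => rfl) (fun _ _ => rfl) h

/-- the column -/
noncomputable def DD (G F : Oracle) : Oracle := (exists_D hΦ hb m G F).choose

theorem DD_spec (G F : Oracle) (q : List Bool) :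
    DD hΦ hb m G F q = vl Φ A b N m G F (DD hΦ hb m G F) q :=
  (exists_D hΦ hb m G F).choose_spec q

/-- the new functional -/
noncomputable def Nx (G F : Oracle) : Oracle := Φ G (ins N m F (DD hΦ hb m G F))

/-- the new used part -/
def Wx (W : List Bool → Bool) (N m : ℕ) (q : List Bool) : Bool := W q || isNew N m q

end

end Pool.Agent.W2helper57.LC
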