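import Pool.Agent.W2helper57.LC.Stm

/-! Uniform algorithms. -/

set_option autoImplicit false

namespace Pool.Agent.W2helper57.LC

open Pool.Agent.NPC Pool.Agent.H620R2.Gauge Pool.Agent.H591R3.PHG Pool.Agent.TH678.GC
  Pool.Agent.W2helper58.GU

theorem s_SEQ : S_SEQ := by
  rintro F G φ ψ ⟨M, hM⟩ ⟨N, hN⟩ hφ hψ
  obtain ⟨b, hb⟩ := A2.out_bound M
  obtain ⟨q, hq⟩ := hφ.sz_le
  set r : Polynomial ℕ := q.comp (Polynomial.C 4 * Polynomial.X + Polynomial.C 4 * b +
    Polynomial.C 3) with hr
  refine ⟨A2.seqAlg M N hφ hψ (M.p + N.p.comp r), fun A x => ?_⟩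
  have h1 := hM A x
  have h2 := hN A (φ (x, F A x))
  have h3 : (φ (x, F A x)).length ≤ r.eval x.length := by
    have h4 := length_lt_sz (φ (x, F A x))
    have h5 := hq (x, F A x)
    have h6 := hb A x (F A x) h1
    have h7 := sz_listBool_le x
    have h8 := sz_listBool_le (F A x)
    refine h4.le.trans (h5.trans ?_)
    rw [hr, Polynomial.eval_comp]
    apply eval_mono
    simp only [sz_pair, Polynomial.eval_add, Polynomial.eval_mul, Polynomial.eval_C,
      Polynomial.eval_X]
    omega
  refine A2.seq_run1 M N hφ hψ (M.p + N.p.comp r) A x (F A x) _ _ h2 _ [] rfl h1 _ ?_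
  have h9 := eval_mono N.p h3
  change (M.p + N.p.comp r).eval x.length ≥ _
  rw [Polynomial.eval_add, Polynomial.eval_comp]
  omega

theorem s_TT : S_TT := by
  intro Q H hQ hH
  obtain ⟨q, hq⟩ := hQ.sz_le
  refine ⟨A2.ttAlg hQ hH (q.comp (Polynomial.C 4 * Polynomial.X + Polynomial.C 1)),
    fun A x => ?_⟩
  have h1 := length_lt_sz (Q x)
  have h2 : (Q x).length + 1 ≤
      (q.comp (Polynomial.C 4 * Polynomial.X + Polynomial.C 1)).eval x.length :=
    A2.sz_eval_le (h1.trans_le (hq x))
  have h3 := A2.tt_run hQ hH (q.comp (Polynomial.C 4 * Polynomial.X + Polynomial.C 1)) A x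
    ((q.comp (Polynomial.C 4 * Polynomial.X + Polynomial.C 1)).eval x.length) 0 (Nat.zero_le _)
    (by omega)
  exact h3

theorem s_LOC : S_LOC := by
  rintro F ⟨M, hM⟩
  obtain ⟨qb, hqb⟩ := M.out_local
  refine ⟨qb, fun A A' x h => ?_⟩
  obtain ⟨Q, _, h2, h3⟩ := hqb A x
  have h4 := h3 A' fun q hq => (h q (h2 q hq)).symm
  rw [hM, hM] at h4
  exact (Option.some.inj h4).symm

/-- the action with a bound for the number of answers -/
def accD (M : Alg) (y : List Bool) : List Bool :=
  if (unpair y).2.length < M.p.eval (unpair y).1.length then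
    M.D (pairBits (unpair y).1 (unpair y).2) else []

theorem poly_accD (M : Alg) : Poly (accD M) := by
  have h1 : Poly (fun y : List Bool => (unpair y).1) := Poly.fst poly_unpair
  have h2 : Poly (fun y : List Bool => (unpair y).2) := Poly.snd poly_unpair
  exact Poly.ite (Poly.decide_lt (Poly.length h2) ((UPoly.length h1).eval M.p).toPoly)
    ((H622R2.poly_of_polyTime M.poly).comp (H622R2.poly_pairBits h1 h2)) (NPC.Poly.const [])

theorem s_ACC : S_ACC := by
  intro M
  refine ⟨⟨accD M, H622R2.polyTime_of_poly_list (poly_accD M), M.p + 1⟩, fun A x => ?_⟩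
  have key : ∀ (n : ℕ) (a : List Bool), a.length + n = M.p.eval x.length →
      Alg.run ⟨accD M, H622R2.polyTime_of_poly_list (poly_accD M), M.p + 1⟩ A x (n + 1) a =
        some ((M.run A x n a).getD []) := by
    intro n
    induction n with
    | zero =>
      intro a ha
      rw [Alg.run]
      have h : accD M (pairBits x a) = [] := by
        unfold accD
        rw [unpair_pairBits, if_neg (by simp only; omega)]
      change (match accD M (pairBits x a) with
        | [] => some [] | true :: z => some z | false :: q => _) = _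
      rw [h]
      rfl
    | succ n ih =>
      intro a ha
      rw [Alg.run]
      have h : accD M (pairBits x a) = M.D (pairBits x a) := by
        unfold accD
        rw [unpair_pairBits, if_pos (by simp only; omega)]
      simp only [h]
      rw [Alg.run]
      rcases hD : M.D (pairBits x a) with _ | ⟨c, q⟩
      · rfl
      · cases c with
        | true => rfl
        | false =>
          exact ih (a ++ [A q]) (by rw [List.length_append, List.length_singleton]; omega)
  have h := key (M.p.eval x.length) [] (by simp)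
  unfold Alg.out
  simp only [Polynomial.eval_add, Polynomial.eval_one]
  exact h

/-! ### Consequences -/

theorem UFP.of_poly {f : List Bool → List Bool} (hf : Poly f) : UFP (fun _ x => f x) :=
  s_TT (fun _ => []) (fun p => f p.1) (NPC.Poly.const []) (hf.comp (Poly.fst Poly.id))

/-- a polynomial-time computation before and after -/
theorem UFP.map {V : Oracle → List Bool → List Bool} (hV : UFP V) {g : List Bool → List Bool}
    (hg : Poly g) {H : List Bool × List Bool → List Bool} (hH : Poly H) :
    UFP (fun A x => H (x, V A (g x))) :=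
  s_SEQ (fun _ x => g x) V (fun p => p.2) (fun p => H (p.1, p.2.2)) (UFP.of_poly hg) hV
    (Poly.snd Poly.id) (hH.comp (Poly.pair (Poly.fst Poly.id) (Poly.snd (Poly.snd Poly.id))))

theorem UFP.precomp {V : Oracle → List Bool → List Bool} (hV : UFP V) {g : List Bool → List Bool}
    (hg : Poly g) : UFP (fun A x => V A (g x)) := hV.map hg (Poly.snd Poly.id)

/-- one question -/
theorem UFP.ask {q : List Bool → List Bool} (hq : Poly q)
    {H : List Bool × Bool → List Bool} (hH : Poly H) : UFP (fun A x => H (x, A (q x))) := by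
  have h := s_TT (fun x => [q x]) (fun p => H (p.1, decide (p.2 = [true])))
    (Poly.cons hq (NPC.Poly.const []))
    (hH.comp (Poly.pair (Poly.fst Poly.id)
      (Poly.decide_eq (Poly.snd Poly.id) (NPC.Poly.const [true]))))
  refine (congrArg UFP (funext fun A => funext fun x => ?_)).mp h
  simp

theorem UFP.isFP {V : Oracle → List Bool → List Bool} (hV : UFP V) (A : Oracle) :
    IsFP A (V A) := by
  obtain ⟨M, hM⟩ := hV
  exact ⟨M, hM A⟩

theorem USg.isSig {k : ℕ} {S : Oracle → Set (List Bool)} (hS : USg k S) (A : Oracle) :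
    IsSig A k (S A) := by
  obtain ⟨V, p, hV, h⟩ := hS
  exact ⟨V A, p, hV.isFP A, h A⟩

/-- the languages of the machines -/
def SM (k : ℕ) (e : Alg × Polynomial ℕ) (O : Oracle) : Set (List Bool) :=
  {x | Quant (e.2.eval x.length) (acc e.1 O) k true x}

theorem uSg_SM (k : ℕ) (e : Alg × Polynomial ℕ) : USg k (SM k e) :=
  ⟨acc e.1, e.2, s_ACC e.1, fun _ _ => Iff.rfl⟩

theorem exists_SM {A : Oracle} {k : ℕ} {L : Set (List Bool)} (h : IsSig A k L) :
    ∃ e, L = SM k e A := by
  obtain ⟨V, p, ⟨M, hM⟩, hL⟩ := h
  refine ⟨(M, p), ?_⟩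
  have h1 : acc M A = V := by
    funext x
    unfold acc
    rw [hM]
    rfl
  ext x
  rw [hL]
  unfold SM
  rw [Set.mem_ofPred_eq, h1]

theorem quant_congr {m : ℕ} {V V' : List Bool → List Bool} : ∀ (k : ℕ) (b : Bool)
    (y : List Bool), (∀ z : List Bool, z.length ≤ y.length + k * (2 * m + 1) → V z = V' z) →
      (Quant m V k b y ↔ Quant m V' k b y) := by
  intro k
  induction k with
  | zero =>
    intro b y h
    simp only [Quant]
    rw [h y (by omega)]
  | succ k ih =>
    intro b y h
    have key : ∀ (w : List Bool) (b : Bool), w.length ≤ m →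
        (Quant m V k b (pairBits w y) ↔ Quant m V' k b (pairBits w y)) := by
      intro w b hw
      apply ih
      intro z hz
      apply h
      rw [length_pairBits] at hz
      have : (k + 1) * (2 * m + 1) = k * (2 * m + 1) + (2 * m + 1) := by ring
      omega
    cases b with
    | true =>
      simp only [Quant]
      exact exists_congr fun w => and_congr_right fun hw => key w false hw
    | false =>
      simp only [Quant]
      exact forall_congr' fun w => imp_congr_right fun hw => key w true hw

/-- `Σ_k` membership depends on short strings only -/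
theorem USg.local {k : ℕ} {S : Oracle → Set (List Bool)} (hS : USg k S) : ∃ b : Polynomial ℕ,
    ∀ (A A' : Oracle) (x : List Bool),
      (∀ q : List Bool, q.length ≤ b.eval x.length → A q = A' q) → (x ∈ S A ↔ x ∈ S A') := by
  obtain ⟨V, p, hV, h⟩ := hS
  obtain ⟨b, hb⟩ := s_LOC V hV
  refine ⟨b.comp (Polynomial.X + Polynomial.C k * (Polynomial.C 2 * p + Polynomial.C 1)),
    fun A A' x hA => ?_⟩
  rw [h, h]
  apply quant_congr
  intro z hz
  apply hb
  intro q hq
  apply hA
  refine hq.trans ?_
  rw [Polynomial.eval_comp]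
  apply eval_mono
  simpa only [Polynomial.eval_add, Polynomial.eval_X, Polynomial.eval_mul, Polynomial.eval_C]
    using hz

end Pool.Agent.W2helper57.LC
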